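import Mathlib

/-!
The Erdős–Selfridge potential for an indexed family `E c`, `c ∈ C`, of finite sets.  `X` is the set
of the points of the first player, `D` is a set of dead points: sets which meet `D` do not count.
-/

set_option autoImplicit false

namespace WWL

open Finset

variable {V ι : Type*} [DecidableEq V]

/-- The potential. -/
noncomputable def Psi (C : Finset ι) (E : ι → Finset V) (X D : Finset V) : ℝ :=
  ∑ c ∈ C.filter (fun c => Disjoint (E c) D), (1 / 2 : ℝ) ^ (E c \ X).card

/-- The part of the potential of the sets which contain `x`. -/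
noncomputable def wt (C : Finset ι) (E : ι → Finset V) (X D : Finset V) (x : V) : ℝ :=
  ∑ c ∈ C.filter (fun c => Disjoint (E c) D ∧ x ∈ E c), (1 / 2 : ℝ) ^ (E c \ X).card

/-- No single move of the first player brings the potential to `1`. -/
def Safe (C : Finset ι) (E : ι → Finset V) (X D : Finset V) : Prop :=
  ∀ x, x ∉ X → x ∉ D → Psi C E X D + wt C E X D x < 1

variable {C : Finset ι} {E : ι → Finset V} {X D D' : Finset V}

lemma Psi_nonneg : 0 ≤ Psi C E X D := Finset.sum_nonneg fun _ _ => by positivity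

lemma wt_le_Psi (x : V) : wt C E X D x ≤ Psi C E X D := by
  unfold wt Psi
  apply Finset.sum_le_sum_of_subset_of_nonneg
  · intro c hc
    simp only [Finset.mem_filter] at hc ⊢
    exact ⟨hc.1, hc.2.1⟩
  · intro _ _ _
    positivity

lemma Psi_mono (h : D ⊆ D') : Psi C E X D' ≤ Psi C E X D := by
  unfold Psi
  apply Finset.sum_le_sum_of_subset_of_nonneg
  · intro c hc
    simp only [Finset.mem_filter] at hc ⊢
    exact ⟨hc.1, Disjoint.mono_right h hc.2⟩
  · intro _ _ _
    positivity

lemma wt_mono (h : D ⊆ D') (x : V) : wt C E X D' x ≤ wt C E X D x := by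
  unfold wt
  apply Finset.sum_le_sum_of_subset_of_nonneg
  · intro c hc
    simp only [Finset.mem_filter] at hc ⊢
    exact ⟨hc.1, Disjoint.mono_right h hc.2.1, hc.2.2⟩
  · intro _ _ _
    positivity

lemma Psi_insert_X {x : V} (hx : x ∉ X) :
    Psi C E (insert x X) D = Psi C E X D + wt C E X D x := by
  unfold Psi wt
  have h1 : C.filter (fun c => Disjoint (E c) D ∧ x ∈ E c) =
      (C.filter (fun c => Disjoint (E c) D)).filter (fun c => x ∈ E c) := by
    rw [Finset.filter_filter]
  rw [h1]
  generalize C.filter (fun c => Disjoint (E c) D) = S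
  rw [Finset.sum_filter, ← Finset.sum_add_distrib]
  apply Finset.sum_congr rfl
  intro c _
  by_cases hxc : x ∈ E c
  · rw [if_pos hxc]
    have h2 : (E c \ X) = insert x (E c \ insert x X) := by
      ext y
      simp only [Finset.mem_sdiff, Finset.mem_insert]
      constructor
      · rintro ⟨h3, h4⟩
        by_cases h5 : y = x
        · exact Or.inl h5
        · exact Or.inr ⟨h3, by tauto⟩
      · rintro (rfl | ⟨h3, h4⟩)
        · exact ⟨hxc, hx⟩
        · exact ⟨h3, by tauto⟩
    have h3 : (E c \ X).card = (E c \ insert x X).card + 1 := by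
      rw [h2, Finset.card_insert_of_notMem]
      simp
    rw [h3, pow_succ]
    ring
  · rw [if_neg hxc, add_zero]
    congr 2
    ext y
    simp only [Finset.mem_sdiff, Finset.mem_insert]
    constructor
    · rintro ⟨h3, h4⟩
      exact ⟨h3, by tauto⟩
    · rintro ⟨h3, h4⟩
      refine ⟨h3, ?_⟩
      rintro (rfl | h5)
      · exact hxc h3
      · exact h4 h5

lemma sdiff_insert_dead {A : Finset V} {x : V} (hx : x ∈ D) (hA : Disjoint A D) :
    A \ insert x X = A \ X := by
  ext y
  simp only [Finset.mem_sdiff, Finset.mem_insert]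
  constructor
  · rintro ⟨h3, h4⟩
    exact ⟨h3, by tauto⟩
  · rintro ⟨h3, h4⟩
    refine ⟨h3, ?_⟩
    rintro (rfl | h5)
    · exact (Finset.disjoint_left.1 hA h3) hx
    · exact h4 h5

lemma Psi_insert_dead {x : V} (hx : x ∈ D) : Psi C E (insert x X) D = Psi C E X D := by
  unfold Psi
  apply Finset.sum_congr rfl
  intro c hc
  rw [Finset.mem_filter] at hc
  rw [sdiff_insert_dead hx hc.2]

lemma wt_insert_dead {x : V} (hx : x ∈ D) (y : V) :
    wt C E (insert x X) D y = wt C E X D y := by
  unfold wt
  apply Finset.sum_congr rfl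
  intro c hc
  rw [Finset.mem_filter] at hc
  rw [sdiff_insert_dead hx hc.2.1]

lemma Psi_insert_D (y : V) : Psi C E X (insert y D) = Psi C E X D - wt C E X D y := by
  unfold Psi wt
  have h1 : C.filter (fun c => Disjoint (E c) D ∧ y ∈ E c) =
      (C.filter (fun c => Disjoint (E c) D)).filter (fun c => y ∈ E c) := by
    rw [Finset.filter_filter]
  have h2 : C.filter (fun c => Disjoint (E c) (insert y D)) =
      (C.filter (fun c => Disjoint (E c) D)).filter (fun c => ¬ y ∈ E c) := by
    rw [Finset.filter_filter]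
    apply Finset.filter_congr
    intro c _
    rw [Finset.disjoint_insert_right]
    tauto
  rw [h1, h2, eq_sub_iff_add_eq, add_comm, Finset.sum_filter_add_sum_filter_not]

lemma one_le_Psi {c : ι} (hc : c ∈ C) (h1 : E c ⊆ X) (h2 : Disjoint (E c) D) :
    1 ≤ Psi C E X D := by
  unfold Psi
  have h3 : c ∈ C.filter (fun c => Disjoint (E c) D) := Finset.mem_filter.2 ⟨hc, h2⟩
  have h4 : (1 / 2 : ℝ) ^ (E c \ X).card = 1 := by
    rw [Finset.sdiff_eq_empty_iff_subset.2 h1]
    simp
  exact h4.ge.trans (Finset.single_le_sum (f := fun c => (1 / 2 : ℝ) ^ (E c \ X).card)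
    (fun _ _ => by positivity) h3)

lemma Safe.mono (h : Safe C E X D) (hD : D ⊆ D') : Safe C E X D' := by
  intro x hx hxD
  have h1 := h x hx (fun h2 => hxD (hD h2))
  have h2 := Psi_mono (C := C) (E := E) (X := X) hD
  have h3 := wt_mono (C := C) (E := E) (X := X) hD x
  linarith

lemma Safe.dead {x : V} (h : Safe C E X D) (hx : x ∈ D) : Safe C E (insert x X) D := by
  intro y hy hyD
  rw [Psi_insert_dead hx, wt_insert_dead hx]
  exact h y (fun h1 => hy (Finset.mem_insert_of_mem h1)) hyD

lemma safe_reply {y : V} (h : Psi C E X D < 1)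
    (hy : ∀ x, x ∉ X → x ∉ D → wt C E X D x ≤ wt C E X D y) : Safe C E X (insert y D) := by
  intro x hx hxD
  rw [Psi_insert_D]
  have h1 := wt_mono (C := C) (E := E) (X := X) (Finset.subset_insert y D) x
  have h2 := hy x hx (fun h3 => hxD (Finset.mem_insert_of_mem h3))
  linarith

lemma safe_init (h : ∑ c ∈ C, (1 / 2 : ℝ) ^ (E c).card < 1 / 2) : Safe C E ∅ ∅ := by
  intro x _ _
  have h1 : Psi C E ∅ ∅ = ∑ c ∈ C, (1 / 2 : ℝ) ^ (E c).card := by
    unfold Psi
    simp
  have h2 := wt_le_Psi (C := C) (E := E) (X := ∅) (D := ∅) x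
  linarith

end WWL
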