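import Mathlib

/-!
Families of finite sets, two of which have at most one common point, such that for a set `M` of the
family and a point `x` outside `M` at most two sets of the family contain `x` and meet `M`.
A set of `P` points has many points in common with few sets of such a family.
-/

set_option autoImplicit false

namespace WWL

open Finset

variable {V : Type*} [DecidableEq V]

/-- The hypotheses on the family. -/
structure Sys (F : Finset (Finset V)) : Prop where
  lin : ∀ A ∈ F, ∀ A' ∈ F, ∀ x y, x ≠ y → x ∈ A → y ∈ A → x ∈ A' → y ∈ A' → A = A'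
  tri : ∀ M ∈ F, ∀ x, x ∉ M → (F.filter fun L => x ∈ L ∧ ¬ Disjoint L M).card ≤ 2

variable {F : Finset (Finset V)}

lemma Sys.inter (hF : Sys F) {A A' : Finset V} (hA : A ∈ F) (hA' : A' ∈ F) (h : A ≠ A') :
    (A ∩ A').card ≤ 1 := by
  rw [Finset.card_le_one]
  intro x hx y hy
  by_contra hxy
  rw [Finset.mem_inter] at hx hy
  exact h (hF.lin A hA A' hA' x y hxy hx.1 hy.1 hx.2 hy.2)

/-- The sets of the family with at least `t` points in `U`. -/
def rich (F : Finset (Finset V)) (U : Finset V) (t : ℕ) : Finset (Finset V) :=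
  F.filter fun G => t ≤ (G ∩ U).card

lemma mem_rich {U : Finset V} {t : ℕ} {G : Finset V} :
    G ∈ rich F U t ↔ G ∈ F ∧ t ≤ (G ∩ U).card := by
  simp [rich]

/-- For a fixed `M`, few rich sets meet `M` in `U`. -/
lemma rich_meet (hF : Sys F) (U : Finset V) (t : ℕ) {M : Finset V} (hM : M ∈ F) :
    ((rich F U (t + 1)).filter fun L => L ≠ M ∧ ¬ Disjoint L (M ∩ U)).card * t ≤
      2 * U.card := by
  classical
  set S := (rich F U (t + 1)).filter fun L => L ≠ M ∧ ¬ Disjoint L (M ∩ U) with hS
  -- pairs `(L, z)`, `z ∈ L ∩ U \ M`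
  have h1 : S.card * t ≤ ∑ L ∈ S, ((U \ M).filter fun z => z ∈ L).card := by
    rw [← smul_eq_mul, ← Finset.sum_const]
    apply Finset.sum_le_sum
    intro L hL
    rw [hS, Finset.mem_filter, mem_rich] at hL
    have h2 : (L ∩ U) ⊆ ((U \ M).filter fun z => z ∈ L) ∪ (L ∩ M) := by
      intro z hz
      rw [Finset.mem_inter] at hz
      rw [Finset.mem_union, Finset.mem_filter, Finset.mem_sdiff, Finset.mem_inter]
      by_cases hzM : z ∈ M
      · exact Or.inr ⟨hz.1, hzM⟩
      · exact Or.inl ⟨⟨hz.2, hzM⟩, hz.1⟩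
    have h3 := Finset.card_le_card h2
    have h4 := Finset.card_union_le ((U \ M).filter fun z => z ∈ L) (L ∩ M)
    have h5 := hF.inter hL.1.1 hM hL.2.1
    have h6 := hL.1.2
    omega
  have h2 : ∑ L ∈ S, ((U \ M).filter fun z => z ∈ L).card =
      ∑ z ∈ U \ M, (S.filter fun L => z ∈ L).card :=
    Finset.sum_card_bipartiteAbove_eq_sum_card_bipartiteBelow (fun L z => z ∈ L)
  have h3 : ∑ z ∈ U \ M, (S.filter fun L => z ∈ L).card ≤ ∑ z ∈ U \ M, 2 := by
    apply Finset.sum_le_sum
    intro z hz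
    rw [Finset.mem_sdiff] at hz
    refine le_trans (Finset.card_le_card ?_) (hF.tri M hM z hz.2)
    intro L hL
    rw [Finset.mem_filter, hS, Finset.mem_filter, mem_rich] at hL
    rw [Finset.mem_filter]
    refine ⟨hL.1.1.1, hL.2, fun h => hL.1.2.2 ?_⟩
    exact Disjoint.mono_right Finset.inter_subset_left h
  have h4 : ∑ z ∈ U \ M, 2 ≤ 2 * U.card := by
    rw [Finset.sum_const, smul_eq_mul, mul_comm]
    exact Nat.mul_le_mul_left 2 (Finset.card_le_card Finset.sdiff_subset)
  calc S.card * t ≤ _ := h1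
    _ = _ := h2
    _ ≤ _ := h3
    _ ≤ _ := h4

/-- The number of rich sets. -/
lemma card_rich (hF : Sys F) (U : Finset V) (t : ℕ) :
    (rich F U (t + 1)).card * ((t + 1) * ((t + 1) * t)) ≤
      U.card * ((t + 1) * t + 2 * U.card) := by
  classical
  set S := rich F U (t + 1) with hS
  set r : V → ℕ := fun x => (S.filter fun L => x ∈ L).card with hr
  set R : ℕ := ∑ x ∈ U, r x with hR
  have e1 : R = ∑ L ∈ S, (L ∩ U).card := by
    have h1 : ∑ L ∈ S, (U.filter fun z => z ∈ L).card =
        ∑ z ∈ U, (S.filter fun L => z ∈ L).card :=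
      Finset.sum_card_bipartiteAbove_eq_sum_card_bipartiteBelow (fun L z => z ∈ L)
    rw [hR, hr, ← h1]
    apply Finset.sum_congr rfl
    intro L _
    congr 1
    ext z
    simp only [Finset.mem_filter, Finset.mem_inter]
    tauto
  have e2 : S.card * (t + 1) ≤ R := by
    rw [e1, ← smul_eq_mul, ← Finset.sum_const]
    apply Finset.sum_le_sum
    intro L hL
    rw [hS, mem_rich] at hL
    exact hL.2
  -- the second moment
  have e3 : ∑ x ∈ U, r x * r x ≤ R + ∑ M ∈ S, (S.filter fun L => L ≠ M ∧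
      ¬ Disjoint L (M ∩ U)).card := by
    have h1 : ∀ x ∈ U, r x * r x = ∑ M ∈ S.filter (fun M => x ∈ M), r x := by
      intro x _
      rw [Finset.sum_const, smul_eq_mul]
    have h2 : ∑ x ∈ U, r x * r x = ∑ M ∈ S, ∑ x ∈ M ∩ U, r x := by
      rw [Finset.sum_congr rfl h1]
      have h3 : ∀ x ∈ U, ∑ M ∈ S.filter (fun M => x ∈ M), r x =
          ∑ M ∈ S, if x ∈ M then r x else 0 := by
        intro x _
        rw [Finset.sum_filter]
      rw [Finset.sum_congr rfl h3, Finset.sum_comm]
      apply Finset.sum_congr rfl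
      intro M _
      rw [← Finset.sum_filter]
      apply Finset.sum_congr _ (fun _ _ => rfl)
      ext z
      simp only [Finset.mem_filter, Finset.mem_inter]
      tauto
    rw [h2, e1, ← Finset.sum_add_distrib]
    apply Finset.sum_le_sum
    intro M hM
    have hMF : M ∈ F := (mem_rich.1 hM).1
    have h4 : ∀ x ∈ M ∩ U, r x = 1 + (S.filter fun L => x ∈ L ∧ L ≠ M).card := by
      intro x hx
      rw [Finset.mem_inter] at hx
      have h5 : S.filter (fun L => x ∈ L) = insert M (S.filter fun L => x ∈ L ∧ L ≠ M) := by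
        ext L
        simp only [Finset.mem_filter, Finset.mem_insert]
        constructor
        · rintro ⟨h6, h7⟩
          by_cases h8 : L = M
          · exact Or.inl h8
          · exact Or.inr ⟨h6, h7, h8⟩
        · rintro (rfl | ⟨h6, h7, -⟩)
          · exact ⟨hM, hx.1⟩
          · exact ⟨h6, h7⟩
      have h6 : r x = (insert M (S.filter fun L => x ∈ L ∧ L ≠ M)).card := by
        rw [← h5]
      rw [h6, Finset.card_insert_of_notMem (by simp), add_comm]
    rw [Finset.sum_congr rfl h4, Finset.sum_add_distrib, Finset.sum_const, smul_eq_mul, mul_one]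
    apply Nat.add_le_add_left
    rw [← Finset.card_biUnion]
    · apply Finset.card_le_card
      intro L hL
      rw [Finset.mem_biUnion] at hL
      obtain ⟨x, hx, hL⟩ := hL
      rw [Finset.mem_filter] at hL ⊢
      refine ⟨hL.1, hL.2.2, ?_⟩
      rw [Finset.not_disjoint_iff]
      exact ⟨x, hL.2.1, hx⟩
    · intro x hx y hy hxy
      rw [Function.onFun, Finset.disjoint_left]
      intro L hL hL'
      rw [Finset.mem_filter] at hL hL'
      rw [Finset.mem_coe, Finset.mem_inter] at hx hy
      exact hL.2.2 (hF.lin L (mem_rich.1 hL.1).1 M hMF x y hxy hL.2.1 hL'.2.1 hx.1 hy.1)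
  -- Cauchy-Schwarz
  have e4 : R * R ≤ U.card * ∑ x ∈ U, r x * r x := by
    have := sq_sum_le_card_mul_sum_sq (s := U) (f := fun x => (r x : ℕ))
    simpa [sq, hR] using this
  have e5 : (∑ M ∈ S, (S.filter fun L => L ≠ M ∧ ¬ Disjoint L (M ∩ U)).card) * t ≤
      S.card * (2 * U.card) := by
    rw [Finset.sum_mul, ← smul_eq_mul (S.card), ← Finset.sum_const]
    apply Finset.sum_le_sum
    intro M hM
    exact rich_meet hF U t (mem_rich.1 hM).1
  set Q : ℕ := ∑ M ∈ S, (S.filter fun L => L ≠ M ∧ ¬ Disjoint L (M ∩ U)).card with hQ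
  set P : ℕ := U.card with hP
  -- `R² ≤ P (R + Q)`, `Q t ≤ |S| 2P`, `|S| (t+1) ≤ R`
  have f1 : R * R ≤ P * (R + Q) := e4.trans (Nat.mul_le_mul_left P e3)
  have f2 : Q * t * (t + 1) ≤ R * (2 * P) := by
    calc Q * t * (t + 1) ≤ S.card * (2 * P) * (t + 1) := Nat.mul_le_mul_right _ e5
      _ = S.card * (t + 1) * (2 * P) := by ring
      _ ≤ R * (2 * P) := Nat.mul_le_mul_right _ e2
  have f3 : R * (R * (t * (t + 1))) ≤ R * (P * ((t + 1) * t + 2 * P)) := by
    calc R * (R * (t * (t + 1))) = R * R * (t * (t + 1)) := by ring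
      _ ≤ P * (R + Q) * (t * (t + 1)) := Nat.mul_le_mul_right _ f1
      _ = P * (R * (t * (t + 1)) + Q * t * (t + 1)) := by ring
      _ ≤ P * (R * (t * (t + 1)) + R * (2 * P)) := by
        apply Nat.mul_le_mul_left
        omega
      _ = R * (P * ((t + 1) * t + 2 * P)) := by ring
  rcases Nat.eq_zero_or_pos R with h0 | hpos
  · have : S.card = 0 := by
      have := e2
      rw [h0] at this
      rcases Nat.eq_zero_or_pos S.card with h | h
      · exact h
      · have : 1 ≤ S.card * (t + 1) := Nat.mul_pos h (Nat.succ_pos t)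
        omega
    rw [this, zero_mul]
    exact Nat.zero_le _
  · have f4 := Nat.le_of_mul_le_mul_left f3 hpos
    calc S.card * ((t + 1) * ((t + 1) * t)) = S.card * (t + 1) * (t * (t + 1)) := by ring
      _ ≤ R * (t * (t + 1)) := Nat.mul_le_mul_right _ e2
      _ ≤ _ := f4

end WWL
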