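import Mathlib
import Pool.Agent.WWL.Rich

/-!
The configurations: a set `A` of the family; points `x j ∈ A` and sets `H j ∋ x j` (`j < m`);
points `y j i ∈ H j` and sets `G j i ∋ y j i` (`i < r`), together with at most `q` points of
`G j i` which are left out.  The winning set of the configuration is the union of the `G j i`
without the points left out.
-/

set_option autoImplicit false

namespace WWL

open Finset

variable {V : Type*} [DecidableEq V] [Fintype V]

/-- A point `y`, a set `G` and `q` points. -/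
abbrev Pt (V : Type*) (q : ℕ) : Type _ := V × Finset V × (Fin q → V)

/-- A point `x`, a set `H` and `r` triples. -/
abbrev Blk (V : Type*) (q r : ℕ) : Type _ := V × Finset V × (Fin r → Pt V q)

/-- The part of `G` which is not left out. -/
def part {q : ℕ} (p : Pt V q) : Finset V := p.2.1 \ univ.image p.2.2

/-- The union of the sets `G` of a block. -/
def cov {q r : ℕ} (b : Blk V q r) : Finset V := univ.biUnion fun i => (b.2.2 i).2.1

/-- The union of the parts of a block. -/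
def bpart {q r : ℕ} (b : Blk V q r) : Finset V := univ.biUnion fun i => part (b.2.2 i)

variable (F : Finset (Finset V))

/-- The triples of a set `H`. -/
def ptSet (q : ℕ) (H : Finset V) : Finset (Pt V q) :=
  (H ×ˢ (F ×ˢ (univ : Finset (Fin q → V)))).filter fun p => p.1 ∈ p.2.1 ∧ ∀ i, p.2.2 i ∈ p.2.1

/-- The blocks of a set `A`. -/
def blkSet (q r : ℕ) (A : Finset V) : Finset (Blk V q r) :=
  (A ×ˢ (F ×ˢ (univ : Finset (Fin r → Pt V q)))).filter fun b =>
    b.1 ∈ b.2.1 ∧ ∀ i, b.2.2 i ∈ ptSet F q b.2.1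

/-- The winning set of a configuration. -/
def win {q r m : ℕ} (c : Finset V × (Fin m → Blk V q r)) : Finset V :=
  univ.biUnion fun j => bpart (c.2 j)

open Classical in
/-- The configurations. -/
noncomputable def cfgSet (q r m : ℕ) : Finset (Finset V × (Fin m → Blk V q r)) :=
  (F ×ˢ (univ : Finset (Fin m → Blk V q r))).filter fun c =>
    (∀ j, c.2 j ∈ blkSet F q r c.1) ∧ ∑ j, ∑ i, (((c.2 j).2.2 i).2.1.card - q) ≤ (win c).card

variable {F}

lemma mem_ptSet {q : ℕ} {H : Finset V} {p : Pt V q} :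
    p ∈ ptSet F q H ↔ p.1 ∈ H ∧ p.2.1 ∈ F ∧ p.1 ∈ p.2.1 ∧ ∀ i, p.2.2 i ∈ p.2.1 := by
  simp only [ptSet, Finset.mem_filter, Finset.mem_product, Finset.mem_univ, and_true]
  tauto

lemma mem_blkSet {q r : ℕ} {A : Finset V} {b : Blk V q r} :
    b ∈ blkSet F q r A ↔ b.1 ∈ A ∧ b.2.1 ∈ F ∧ b.1 ∈ b.2.1 ∧ ∀ i, b.2.2 i ∈ ptSet F q b.2.1 := by
  simp only [blkSet, Finset.mem_filter, Finset.mem_product, Finset.mem_univ, and_true]
  tauto

/-! ### The weights -/

/-- The weight of a triple. -/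
noncomputable def pw (q : ℕ) (p : Pt V q) : ℝ := 2 ^ q * (1 / 2) ^ p.2.1.card

lemma pw_pos {q : ℕ} (p : Pt V q) : 0 < pw q p := by unfold pw; positivity

lemma half_pow_sub (a q : ℕ) : (1 / 2 : ℝ) ^ (a - q) ≤ 2 ^ q * (1 / 2) ^ a := by
  rcases le_total q a with h | h
  · obtain ⟨k, rfl⟩ := Nat.exists_eq_add_of_le h
    rw [Nat.add_sub_cancel_left, pow_add, ← mul_assoc, ← mul_pow]
    norm_num
  · rw [Nat.sub_eq_zero_of_le h, pow_zero]
    obtain ⟨k, rfl⟩ := Nat.exists_eq_add_of_le h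
    rw [pow_add, mul_comm, ← mul_assoc, ← mul_pow]
    norm_num
    exact one_le_pow₀ (by norm_num)

lemma sum_ptSet {q n : ℕ} {lam : ℝ} (hlam0 : 0 ≤ lam)
    (hlam : ∀ x, ∑ G ∈ F with x ∈ G, (1 / 2 : ℝ) ^ G.card ≤ lam)
    (hn : ∀ G ∈ F, G.card ≤ n) {H : Finset V} (hH : H.card ≤ n) :
    ∑ p ∈ ptSet F q H, pw q p ≤ n * ((2 * n) ^ q * lam) := by
  have h1 : ∑ p ∈ ptSet F q H, pw q p =
      ∑ y ∈ H, ∑ G ∈ F with y ∈ G, (G.card : ℝ) ^ q * (2 ^ q * (1 / 2) ^ G.card) := by
    rw [ptSet, Finset.sum_filter, Finset.sum_product]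
    apply Finset.sum_congr rfl
    intro y _
    rw [Finset.sum_product, Finset.sum_filter]
    apply Finset.sum_congr rfl
    intro G _
    by_cases hy : y ∈ G
    · simp only [hy, true_and, if_true]
      rw [← Finset.sum_filter]
      have h2 : (univ.filter fun z : Fin q → V => ∀ i, z i ∈ G) =
          Fintype.piFinset fun _ : Fin q => G := by
        ext z
        simp [Fintype.mem_piFinset]
      rw [h2]
      simp only [pw]
      rw [Finset.sum_const, Fintype.card_piFinset]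
      simp
    · simp [hy]
  rw [h1]
  have h3 : ∀ y ∈ H, ∑ G ∈ F with y ∈ G, (G.card : ℝ) ^ q * (2 ^ q * (1 / 2) ^ G.card) ≤
      (2 * n) ^ q * lam := by
    intro y _
    calc ∑ G ∈ F with y ∈ G, (G.card : ℝ) ^ q * (2 ^ q * (1 / 2) ^ G.card)
        ≤ ∑ G ∈ F with y ∈ G, (2 * n : ℝ) ^ q * (1 / 2) ^ G.card := by
          apply Finset.sum_le_sum
          intro G hG
          rw [Finset.mem_filter] at hG
          rw [← mul_assoc, ← mul_pow, mul_comm (G.card : ℝ) 2]
          have : (G.card : ℝ) ≤ n := by exact_mod_cast hn G hG.1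
          gcongr
      _ = (2 * n : ℝ) ^ q * ∑ G ∈ F with y ∈ G, (1 / 2 : ℝ) ^ G.card := by
          rw [Finset.mul_sum]
      _ ≤ _ := by
          gcongr
          exact hlam y
  calc ∑ y ∈ H, ∑ G ∈ F with y ∈ G, (G.card : ℝ) ^ q * (2 ^ q * (1 / 2) ^ G.card)
      ≤ ∑ y ∈ H, (2 * n : ℝ) ^ q * lam := Finset.sum_le_sum h3
    _ = H.card * ((2 * n : ℝ) ^ q * lam) := by rw [Finset.sum_const, nsmul_eq_mul]
    _ ≤ _ := by
        have : (H.card : ℝ) ≤ n := by exact_mod_cast hH
        gcongr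

lemma sum_blkSet {q r n Lam : ℕ} {lam : ℝ} (hlam0 : 0 ≤ lam)
    (hlam : ∀ x, ∑ G ∈ F with x ∈ G, (1 / 2 : ℝ) ^ G.card ≤ lam)
    (hLam : ∀ x, (F.filter fun G => x ∈ G).card ≤ Lam)
    (hn : ∀ G ∈ F, G.card ≤ n) {A : Finset V} (hA : A.card ≤ n) :
    ∑ b ∈ blkSet F q r A, ∏ i, pw q (b.2.2 i) ≤
      n * (Lam * (n * ((2 * n) ^ q * lam)) ^ r) := by
  have h1 : ∑ b ∈ blkSet F q r A, ∏ i, pw q (b.2.2 i) =
      ∑ x ∈ A, ∑ H ∈ F with x ∈ H, (∑ p ∈ ptSet F q H, pw q p) ^ r := by
    rw [blkSet, Finset.sum_filter, Finset.sum_product]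
    apply Finset.sum_congr rfl
    intro x _
    rw [Finset.sum_product, Finset.sum_filter]
    apply Finset.sum_congr rfl
    intro H _
    by_cases hx : x ∈ H
    · simp only [hx, true_and, if_true]
      rw [← Finset.sum_filter]
      have h2 : (univ.filter fun z : Fin r → Pt V q => ∀ i, z i ∈ ptSet F q H) =
          Fintype.piFinset fun _ : Fin r => ptSet F q H := by
        ext z
        simp [Fintype.mem_piFinset]
      rw [h2]
      have h3 := Finset.prod_univ_sum (fun _ : Fin r => ptSet F q H)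
        (fun _ p => pw q p)
      rw [← h3]
      simp
    · simp [hx]
  rw [h1]
  set mu : ℝ := n * ((2 * n) ^ q * lam) with hmu
  have hmu0 : 0 ≤ mu := by positivity
  have h3 : ∀ x ∈ A, ∑ H ∈ F with x ∈ H, (∑ p ∈ ptSet F q H, pw q p) ^ r ≤ Lam * mu ^ r := by
    intro x _
    calc ∑ H ∈ F with x ∈ H, (∑ p ∈ ptSet F q H, pw q p) ^ r
        ≤ ∑ H ∈ F with x ∈ H, mu ^ r := by
          apply Finset.sum_le_sum
          intro H hH
          rw [Finset.mem_filter] at hH
          apply pow_le_pow_left₀ (Finset.sum_nonneg fun p _ => (pw_pos p).le)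
          exact sum_ptSet hlam0 hlam hn (hn H hH.1)
      _ = (F.filter fun H => x ∈ H).card * mu ^ r := by rw [Finset.sum_const, nsmul_eq_mul]
      _ ≤ _ := by
          have : ((F.filter fun H => x ∈ H).card : ℝ) ≤ Lam := by exact_mod_cast hLam x
          gcongr
  calc ∑ x ∈ A, ∑ H ∈ F with x ∈ H, (∑ p ∈ ptSet F q H, pw q p) ^ r
      ≤ ∑ x ∈ A, Lam * mu ^ r := Finset.sum_le_sum h3
    _ = A.card * (Lam * mu ^ r) := by rw [Finset.sum_const, nsmul_eq_mul]
    _ ≤ _ := by
        have : (A.card : ℝ) ≤ n := by exact_mod_cast hA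
        gcongr

lemma sum_cfgSet {q r m n Lam : ℕ} {lam : ℝ} (hlam0 : 0 ≤ lam)
    (hlam : ∀ x, ∑ G ∈ F with x ∈ G, (1 / 2 : ℝ) ^ G.card ≤ lam)
    (hLam : ∀ x, (F.filter fun G => x ∈ G).card ≤ Lam) (hn : ∀ G ∈ F, G.card ≤ n) :
    ∑ c ∈ cfgSet F q r m, (1 / 2 : ℝ) ^ (win c).card ≤
      F.card * (n * (Lam * (n * ((2 * n) ^ q * lam)) ^ r)) ^ m := by
  classical
  set K : ℝ := n * (Lam * (n * ((2 * n) ^ q * lam)) ^ r) with hK
  have hK0 : 0 ≤ K := by positivity
  have h1 : ∀ c ∈ cfgSet F q r m, (1 / 2 : ℝ) ^ (win c).card ≤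
      ∏ j, ∏ i, pw q ((c.2 j).2.2 i) := by
    intro c hc
    rw [cfgSet, Finset.mem_filter] at hc
    calc (1 / 2 : ℝ) ^ (win c).card
        ≤ (1 / 2 : ℝ) ^ (∑ j, ∑ i, (((c.2 j).2.2 i).2.1.card - q)) :=
          pow_le_pow_of_le_one (by norm_num) (by norm_num) hc.2.2
      _ = ∏ j, ∏ i, (1 / 2 : ℝ) ^ (((c.2 j).2.2 i).2.1.card - q) := by
          rw [← Finset.prod_pow_eq_pow_sum]
          apply Finset.prod_congr rfl
          intro j _
          rw [← Finset.prod_pow_eq_pow_sum]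
      _ ≤ _ := by
          apply Finset.prod_le_prod
          · intro j _
            exact Finset.prod_nonneg fun i _ => by positivity
          · intro j _
            apply Finset.prod_le_prod
            · intro i _
              positivity
            · intro i _
              exact half_pow_sub _ _
  have h2 : ∑ c ∈ cfgSet F q r m, ∏ j, ∏ i, pw q ((c.2 j).2.2 i) ≤
      ∑ A ∈ F, ∑ f ∈ Fintype.piFinset (fun _ : Fin m => blkSet F q r A),
        ∏ j, ∏ i, pw q ((f j).2.2 i) := by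
    rw [cfgSet, Finset.sum_filter, Finset.sum_product]
    apply Finset.sum_le_sum
    intro A _
    rw [← Finset.sum_filter]
    apply Finset.sum_le_sum_of_subset_of_nonneg
    · intro f hf
      rw [Finset.mem_filter] at hf
      rw [Fintype.mem_piFinset]
      exact hf.2.1
    · intro f _ _
      exact Finset.prod_nonneg fun j _ => Finset.prod_nonneg fun i _ => (pw_pos _).le
  calc ∑ c ∈ cfgSet F q r m, (1 / 2 : ℝ) ^ (win c).card
      ≤ ∑ c ∈ cfgSet F q r m, ∏ j, ∏ i, pw q ((c.2 j).2.2 i) := Finset.sum_le_sum h1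
    _ ≤ _ := h2
    _ ≤ ∑ A ∈ F, K ^ m := by
        apply Finset.sum_le_sum
        intro A hA
        have h3 := Finset.prod_univ_sum (fun _ : Fin m => blkSet F q r A)
          (fun _ (b : Blk V q r) => ∏ i, pw q (b.2.2 i))
        rw [← h3, Finset.prod_const, Finset.card_univ, Fintype.card_fin]
        apply pow_le_pow_left₀
        · exact Finset.sum_nonneg fun b _ => Finset.prod_nonneg fun i _ => (pw_pos _).le
        · exact sum_blkSet hlam0 hlam hLam hn (hn A hA)
    _ = _ := by rw [Finset.sum_const, nsmul_eq_mul]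

end WWL
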