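import Mathlib
import Pool.Agent.WWL.Cfg

/-!
A configuration whose winning set is owned by the first player exists if a set has many bad points.
-/

set_option autoImplicit false

namespace WWL

open Finset

variable {V : Type*} [DecidableEq V] [Fintype V] {F : Finset (Finset V)}

/-- The situation: `A` is a set of the family, `Bd ⊆ A` are its bad points, `H x` is a set through
the bad point `x` with many reserved points, `G y` is the set of the reserved point `y`; `M` are the
points of the first player outside the reserved points `R`. -/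
structure Bad (F : Finset (Finset V)) (n w h d : ℕ) (M R A Bd : Finset V) (H G : V → Finset V) :
    Prop where
  hn : ∀ K ∈ F, K.card ≤ n
  hA : A ∈ F
  hBA : Bd ⊆ A
  hBw : w ≤ Bd.card + 1
  hBR : ∀ x ∈ Bd, x ∉ R
  hHF : ∀ x ∈ Bd, H x ∈ F
  hHx : ∀ x ∈ Bd, x ∈ H x
  hHA : ∀ x ∈ Bd, H x ≠ A
  hHR : ∀ x ∈ Bd, h ≤ (H x ∩ R).card + 1
  hGF : ∀ y ∈ R, G y ∈ F
  hGy : ∀ y ∈ R, y ∈ G y
  hGM : ∀ y ∈ R, (G y \ M).card ≤ d
  hG2 : ∀ K ∈ F, (R.filter fun y => G y = K).card ≤ 2
  hGH : ∀ x ∈ Bd, ∀ y ∈ H x ∩ R, G y ≠ H x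

/-- A function onto a given set, up to additional values in `G`. -/
lemma exists_fn {q : ℕ} {G Z : Finset V} (hZ : Z ⊆ G) (hq : Z.card ≤ q) {y : V} (hy : y ∈ G) :
    ∃ z : Fin q → V, (∀ i, z i ∈ G) ∧ Z ⊆ univ.image z := by
  classical
  refine ⟨fun i => if h : i.val < Z.card then (Z.equivFin.symm ⟨i.val, h⟩ : V) else y, ?_, ?_⟩
  · intro i
    by_cases h : i.val < Z.card
    · simp only [dif_pos h]
      exact hZ (Z.equivFin.symm ⟨i.val, h⟩).2
    · simp only [dif_neg h]
      exact hy
  · intro x hx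
    rw [Finset.mem_image]
    have h1 := (Z.equivFin ⟨x, hx⟩).2
    refine ⟨⟨(Z.equivFin ⟨x, hx⟩).1, h1.trans_le hq⟩, Finset.mem_univ _, ?_⟩
    simp only [dif_pos h1]
    simp

section

variable {n w h d : ℕ} {M R A Bd : Finset V} {H G : V → Finset V}

/-- There is an unused bad point `x` such that many reserved points `y` of `H x` have sets `G y`
which have few points in `U`. -/
lemma exists_point (hF : Sys F) (hb : Bad F n w h d M R A Bd H G) (U used : Finset V) (s r m P : ℕ)
    (hU : U.card ≤ P) (hused : used.card < m)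
    (hcomb : 4 * (P * ((s + 1) * s + 2 * P)) <
      (w - m) * (h - r) * ((s + 1) * ((s + 1) * s))) :
    ∃ x ∈ Bd, x ∉ used ∧ r ≤ ((H x ∩ R).filter fun y => (G y ∩ U).card ≤ s).card := by
  classical
  by_contra hcon
  push Not at hcon
  set S := rich F U (s + 1) with hS
  have hSc : S.card * ((s + 1) * ((s + 1) * s)) ≤ P * ((s + 1) * s + 2 * P) := by
    refine (card_rich hF U s).trans ?_
    gcongr
  set B' := Bd.filter fun x => x ∉ used with hB'
  have hB'c : w - m ≤ B'.card := by
    have h1 : Bd ⊆ B' ∪ used := by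
      intro x hx
      rw [Finset.mem_union, hB', Finset.mem_filter]
      by_cases h : x ∈ used
      · exact Or.inr h
      · exact Or.inl ⟨hx, h⟩
    have h2 := Finset.card_le_card h1
    have h3 := Finset.card_union_le B' used
    have h4 := hb.hBw
    omega
  -- the reserved points with rich sets
  set Y := R.filter fun y => G y ∈ S with hY
  have h1 : ∀ x ∈ B', h - r ≤ (Y.filter fun y => y ∈ H x).card := by
    intro x hx
    rw [hB', Finset.mem_filter] at hx
    have h2 := hcon x hx.1 hx.2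
    have h3 := hb.hHR x hx.1
    have h4 : H x ∩ R ⊆ ((H x ∩ R).filter fun y => (G y ∩ U).card ≤ s) ∪
        (Y.filter fun y => y ∈ H x) := by
      intro y hy
      rw [Finset.mem_union, Finset.mem_filter, Finset.mem_filter, hY, Finset.mem_filter]
      by_cases h5 : (G y ∩ U).card ≤ s
      · exact Or.inl ⟨hy, h5⟩
      · rw [Finset.mem_inter] at hy
        refine Or.inr ⟨⟨hy.2, ?_⟩, hy.1⟩
        rw [hS, mem_rich]
        exact ⟨hb.hGF y hy.2, by omega⟩
    have h5 := Finset.card_le_card h4
    have h6 := Finset.card_union_le ((H x ∩ R).filter fun y => (G y ∩ U).card ≤ s)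
      (Y.filter fun y => y ∈ H x)
    omega
  have h2 : (w - m) * (h - r) ≤ ∑ x ∈ B', (Y.filter fun y => y ∈ H x).card := by
    calc (w - m) * (h - r) ≤ B'.card * (h - r) := Nat.mul_le_mul_right _ hB'c
      _ = ∑ x ∈ B', (h - r) := by rw [Finset.sum_const, smul_eq_mul]
      _ ≤ _ := Finset.sum_le_sum h1
  have h3 : ∑ x ∈ B', (Y.filter fun y => y ∈ H x).card =
      ∑ y ∈ Y, (B'.filter fun x => y ∈ H x).card :=
    Finset.sum_card_bipartiteAbove_eq_sum_card_bipartiteBelow (fun x y => y ∈ H x)
  have h4 : ∀ y ∈ Y, (B'.filter fun x => y ∈ H x).card ≤ 2 := by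
    intro y hy
    rw [hY, Finset.mem_filter] at hy
    by_cases hyA : y ∈ A
    · rw [Finset.filter_eq_empty_iff.2]
      · simp
      · intro x hx hyx
        rw [hB', Finset.mem_filter] at hx
        have hne : x ≠ y := by
          rintro rfl
          exact hb.hBR x hx.1 hy.1
        exact hb.hHA x hx.1 (hF.lin (H x) (hb.hHF x hx.1) A hb.hA x y hne (hb.hHx x hx.1) hyx
          (hb.hBA hx.1) hyA)
    · refine le_trans ?_ (hF.tri A hb.hA y hyA)
      apply Finset.card_le_card_of_injOn H
      · intro x hx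
        rw [Finset.mem_coe, Finset.mem_filter, hB', Finset.mem_filter] at hx
        rw [Finset.mem_coe, Finset.mem_filter]
        refine ⟨hb.hHF x hx.1.1, hx.2, ?_⟩
        rw [Finset.not_disjoint_iff]
        exact ⟨x, hb.hHx x hx.1.1, hb.hBA hx.1.1⟩
      · intro x hx x' hx' he
        rw [Finset.mem_coe, Finset.mem_filter, hB', Finset.mem_filter] at hx hx'
        by_contra hne
        refine hb.hHA x hx.1.1 (hF.lin (H x) (hb.hHF x hx.1.1) A hb.hA x x' hne
          (hb.hHx x hx.1.1) ?_ (hb.hBA hx.1.1) (hb.hBA hx'.1.1))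
        rw [he]
        exact hb.hHx x' hx'.1.1
  have h5 : ∑ y ∈ Y, (B'.filter fun x => y ∈ H x).card ≤ Y.card * 2 := by
    rw [← smul_eq_mul, ← Finset.sum_const]
    exact Finset.sum_le_sum h4
  have h6 : Y.card ≤ S.card * 2 := by
    have h7 : Y.card = ∑ K ∈ S, (Y.filter fun y => G y = K).card := by
      apply Finset.card_eq_sum_card_fiberwise
      intro y hy
      rw [Finset.mem_coe, hY, Finset.mem_filter] at hy
      exact hy.2
    rw [h7, ← smul_eq_mul, ← Finset.sum_const]
    apply Finset.sum_le_sum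
    intro K hK
    refine le_trans (Finset.card_le_card ?_) (hb.hG2 K (mem_rich.1 hK).1)
    intro y hy
    rw [Finset.mem_filter, hY, Finset.mem_filter] at hy
    rw [Finset.mem_filter]
    exact ⟨hy.1.1, hy.2⟩
  have h7 : (w - m) * (h - r) ≤ S.card * 4 := by omega
  have h8 : (w - m) * (h - r) * ((s + 1) * ((s + 1) * s)) ≤
      4 * (P * ((s + 1) * s + 2 * P)) := by
    calc (w - m) * (h - r) * ((s + 1) * ((s + 1) * s)) ≤
        S.card * 4 * ((s + 1) * ((s + 1) * s)) := Nat.mul_le_mul_right _ h7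
      _ = 4 * (S.card * ((s + 1) * ((s + 1) * s))) := by ring
      _ ≤ _ := Nat.mul_le_mul_left 4 hSc
  omega

/-- The good blocks with respect to the points `U` covered before. -/
structure GB (F : Finset (Finset V)) (q r : ℕ) (M A U : Finset V) (b : Blk V q r) : Prop where
  mem : b ∈ blkSet F q r A
  sub : ∀ i, part (b.2.2 i) ⊆ M
  disj : ∀ i, Disjoint (part (b.2.2 i)) U
  pair : ∀ i i', i ≠ i' → Disjoint (part (b.2.2 i)) (part (b.2.2 i'))

lemma exists_block (hF : Sys F) (hb : Bad F n w h d M R A Bd H G) (U used : Finset V)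
    (s r m P q : ℕ) (hU : U.card ≤ P) (hused : used.card < m)
    (hcomb : 4 * (P * ((s + 1) * s + 2 * P)) <
      (w - m) * (h - r) * ((s + 1) * ((s + 1) * s))) (hq : d + s + r ≤ q) :
    ∃ b : Blk V q r, GB F q r M A U b ∧ b.1 ∉ used := by
  classical
  obtain ⟨x, hx, hxu, hr⟩ := exists_point hF hb U used s r m P hU hused hcomb
  obtain ⟨Y, hYsub, hYc⟩ := Finset.exists_subset_card_eq hr
  set y : Fin r → V := fun i => ((Finset.equivFinOfCardEq hYc).symm i : V) with hy
  have hyY : ∀ i, y i ∈ Y := fun i => ((Finset.equivFinOfCardEq hYc).symm i).2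
  have hyinj : ∀ i i', i ≠ i' → y i ≠ y i' := by
    intro i i' hii h1
    apply hii
    apply (Finset.equivFinOfCardEq hYc).symm.injective
    exact Subtype.ext h1
  have hyH : ∀ i, y i ∈ H x := fun i =>
    (Finset.mem_inter.1 (Finset.mem_filter.1 (hYsub (hyY i))).1).1
  have hyR : ∀ i, y i ∈ R := fun i =>
    (Finset.mem_inter.1 (Finset.mem_filter.1 (hYsub (hyY i))).1).2
  have hys : ∀ i, (G (y i) ∩ U).card ≤ s := fun i => (Finset.mem_filter.1 (hYsub (hyY i))).2
  have hGne : ∀ i i', i ≠ i' → G (y i) ≠ G (y i') := by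
    intro i i' hii h1
    apply hb.hGH x hx (y i) (Finset.mem_inter.2 ⟨hyH i, hyR i⟩)
    apply hF.lin _ (hb.hGF _ (hyR i)) _ (hb.hHF x hx) (y i) (y i') (hyinj i i' hii)
      (hb.hGy _ (hyR i)) ?_ (hyH i) (hyH i')
    rw [h1]
    exact hb.hGy _ (hyR i')
  set Z : Fin r → Finset V := fun i => (G (y i) \ M) ∪ (G (y i) ∩ U) ∪
    (univ.erase i).biUnion (fun i' => G (y i) ∩ G (y i')) with hZ
  have hZG : ∀ i, Z i ⊆ G (y i) := by
    intro i z hz
    simp only [hZ, Finset.mem_union, Finset.mem_sdiff, Finset.mem_inter, Finset.mem_biUnion] at hz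
    rcases hz with (h1 | h1) | ⟨_, _, h1⟩
    · exact h1.1
    · exact h1.1
    · exact h1.1
  have hZc : ∀ i, (Z i).card ≤ q := by
    intro i
    have h1 : ((univ.erase i).biUnion (fun i' => G (y i) ∩ G (y i'))).card ≤ r := by
      calc ((univ.erase i).biUnion (fun i' => G (y i) ∩ G (y i'))).card ≤
          ∑ i' ∈ univ.erase i, (G (y i) ∩ G (y i')).card := Finset.card_biUnion_le
        _ ≤ ∑ i' ∈ univ.erase i, 1 := by
          apply Finset.sum_le_sum
          intro i' hi'
          exact hF.inter (hb.hGF _ (hyR i)) (hb.hGF _ (hyR i'))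
            (hGne i i' (Finset.ne_of_mem_erase hi').symm)
        _ = (univ.erase i).card := by simp
        _ ≤ r := by
          refine (Finset.card_le_univ _).trans ?_
          simp
    have h2 := Finset.card_union_le ((G (y i) \ M) ∪ (G (y i) ∩ U))
      ((univ.erase i).biUnion (fun i' => G (y i) ∩ G (y i')))
    have h3 := Finset.card_union_le (G (y i) \ M) (G (y i) ∩ U)
    have h4 := hb.hGM (y i) (hyR i)
    have h5 := hys i
    simp only [hZ]
    omega
  have hz : ∀ i, ∃ z : Fin q → V, (∀ k, z k ∈ G (y i)) ∧ Z i ⊆ univ.image z := fun i =>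
    exists_fn (hZG i) (hZc i) (hb.hGy _ (hyR i))
  choose z hz1 hz2 using hz
  have hpart : ∀ i v, v ∈ part ((y i, G (y i), z i) : Pt V q) → v ∈ G (y i) ∧ v ∉ Z i := by
    intro i v hv
    rw [part, Finset.mem_sdiff] at hv
    exact ⟨hv.1, fun h1 => hv.2 (hz2 i h1)⟩
  refine ⟨(x, H x, fun i => (y i, G (y i), z i)), ⟨?_, ?_, ?_, ?_⟩, hxu⟩
  · rw [mem_blkSet]
    refine ⟨hb.hBA hx, hb.hHF x hx, hb.hHx x hx, fun i => ?_⟩
    rw [mem_ptSet]
    exact ⟨hyH i, hb.hGF _ (hyR i), hb.hGy _ (hyR i), hz1 i⟩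
  · intro i v hv
    obtain ⟨h1, h2⟩ := hpart i v hv
    by_contra h3
    apply h2
    simp only [hZ, Finset.mem_union, Finset.mem_sdiff]
    exact Or.inl (Or.inl ⟨h1, h3⟩)
  · intro i
    rw [Finset.disjoint_left]
    intro v hv hvU
    obtain ⟨h1, h2⟩ := hpart i v hv
    apply h2
    simp only [hZ, Finset.mem_union, Finset.mem_inter]
    exact Or.inl (Or.inr ⟨h1, hvU⟩)
  · intro i i' hii
    rw [Finset.disjoint_left]
    intro v hv hv'
    obtain ⟨h1, h2⟩ := hpart i v hv
    obtain ⟨h3, -⟩ := hpart i' v hv'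
    apply h2
    simp only [hZ, Finset.mem_union, Finset.mem_biUnion, Finset.mem_inter]
    exact Or.inr ⟨i', Finset.mem_erase.2 ⟨hii.symm, Finset.mem_univ _⟩, h1, h3⟩

lemma card_cov {q r n : ℕ} (hn : ∀ K ∈ F, K.card ≤ n) {A : Finset V} {b : Blk V q r}
    (hb : b ∈ blkSet F q r A) : (cov b).card ≤ r * n := by
  rw [mem_blkSet] at hb
  calc (cov b).card ≤ ∑ i : Fin r, (b.2.2 i).2.1.card := Finset.card_biUnion_le
    _ ≤ ∑ _i : Fin r, n := Finset.sum_le_sum fun i _ => hn _ (mem_ptSet.1 (hb.2.2.2 i)).2.1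
    _ = r * n := by simp

lemma exists_seq (hF : Sys F) (hb : Bad F n w h d M R A Bd H G) (s r m q : ℕ) (hm : 0 < m)
    (hcomb : 4 * (m * (r * n) * ((s + 1) * s + 2 * (m * (r * n)))) <
      (w - m) * (h - r) * ((s + 1) * ((s + 1) * s))) (hq : d + s + r ≤ q) (k : ℕ) (hk : k ≤ m) :
    ∃ b : ℕ → Blk V q r, ∀ j < k, GB F q r M A ((range j).biUnion fun j' => cov (b j')) (b j) := by
  classical
  induction k with
  | zero =>
    obtain ⟨b, -, -⟩ := exists_block hF hb ∅ ∅ s r m (m * (r * n)) q (by simp) (by simpa) hcomb hq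
    exact ⟨fun _ => b, fun j hj => absurd hj (Nat.not_lt_zero j)⟩
  | succ k ih =>
    obtain ⟨b, hbk⟩ := ih (by omega)
    have hUc : ((range k).biUnion fun j' => cov (b j')).card ≤ m * (r * n) := by
      calc ((range k).biUnion fun j' => cov (b j')).card ≤
          ∑ j ∈ range k, (cov (b j)).card := Finset.card_biUnion_le
        _ ≤ ∑ _j ∈ range k, r * n := by
          apply Finset.sum_le_sum
          intro j hj
          exact card_cov hb.hn (hbk j (Finset.mem_range.1 hj)).mem
        _ = k * (r * n) := by simp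
        _ ≤ m * (r * n) := Nat.mul_le_mul_right _ (by omega)
    obtain ⟨b', hb', -⟩ := exists_block hF hb ((range k).biUnion fun j' => cov (b j')) ∅
      s r m (m * (r * n)) q hUc (by
        rw [Finset.card_empty]
        omega) hcomb hq
    refine ⟨Function.update b k b', fun j hj => ?_⟩
    have h1 : ((range j).biUnion fun j' => cov (Function.update b k b' j')) =
        (range j).biUnion fun j' => cov (b j') := by
      apply Finset.biUnion_congr rfl
      intro j' hj'
      rw [Finset.mem_range] at hj'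
      rw [Function.update_of_ne (by omega)]
    rw [h1]
    by_cases hjk : j = k
    · subst hjk
      rw [Function.update_self]
      exact hb'
    · rw [Function.update_of_ne hjk]
      exact hbk j (by omega)

/-- A configuration whose winning set lies in `M`. -/
lemma exists_cfg (hF : Sys F) (hb : Bad F n w h d M R A Bd H G) (s r m q : ℕ) (hm : 0 < m)
    (hcomb : 4 * (m * (r * n) * ((s + 1) * s + 2 * (m * (r * n)))) <
      (w - m) * (h - r) * ((s + 1) * ((s + 1) * s))) (hq : d + s + r ≤ q) :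
    ∃ c ∈ cfgSet F q r m, win c ⊆ M := by
  classical
  obtain ⟨b, hbk⟩ := exists_seq hF hb s r m q hm hcomb hq m le_rfl
  refine ⟨(A, fun j : Fin m => b j), ?_, ?_⟩
  · rw [cfgSet, Finset.mem_filter]
    refine ⟨Finset.mem_product.2 ⟨hb.hA, Finset.mem_univ _⟩, fun j => (hbk j j.2).mem, ?_⟩
    -- the parts of the blocks are pairwise disjoint
    have h1 : ∀ j : Fin m, (bpart (b j)).card = ∑ i, (part ((b j).2.2 i)).card := by
      intro j
      rw [bpart, Finset.card_biUnion]
      intro i _ i' _ hii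
      exact (hbk j j.2).pair i i' hii
    have h2 : (win ((A, fun j : Fin m => b j) : Finset V × (Fin m → Blk V q r))).card =
        ∑ j : Fin m, (bpart (b j)).card := by
      rw [win, Finset.card_biUnion]
      have h3 : ∀ j j' : Fin m, j < j' → Disjoint (bpart (b j)) (bpart (b j')) := by
        intro j j' hjj
        rw [Finset.disjoint_left]
        intro v hv hv'
        rw [bpart, Finset.mem_biUnion] at hv hv'
        obtain ⟨i, -, hi⟩ := hv
        obtain ⟨i', -, hi'⟩ := hv'
        have h4 := (hbk j' j'.2).disj i'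
        rw [Finset.disjoint_left] at h4
        apply h4 hi'
        rw [Finset.mem_biUnion]
        refine ⟨j, Finset.mem_range.2 hjj, ?_⟩
        rw [cov, Finset.mem_biUnion]
        refine ⟨i, Finset.mem_univ _, ?_⟩
        rw [part, Finset.mem_sdiff] at hi
        exact hi.1
      intro j _ j' _ hjj
      rcases lt_or_gt_of_ne hjj with h | h
      · exact h3 j j' h
      · exact (h3 j' j h).symm
    rw [h2]
    apply Finset.sum_le_sum
    intro j _
    rw [h1 j]
    apply Finset.sum_le_sum
    intro i _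
    show ((b j).2.2 i).2.1.card - q ≤ (part ((b j).2.2 i)).card
    rw [part]
    have h5 := Finset.le_card_sdiff (univ.image ((b j).2.2 i).2.2) ((b j).2.2 i).2.1
    have h6 : (univ.image ((b j).2.2 i).2.2).card ≤ q := by
      refine Finset.card_image_le.trans ?_
      simp
    omega
  · intro v hv
    rw [win, Finset.mem_biUnion] at hv
    obtain ⟨j, -, hv⟩ := hv
    rw [bpart, Finset.mem_biUnion] at hv
    obtain ⟨i, -, hv⟩ := hv
    exact (hbk j j.2).sub i hv

end

end WWL
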