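import Mathlib
import Pool.Agent.WWL.ES
import Pool.Agent.WWL.Select
import Pool.Agent.WW.Defs

/-!
The strategy of the second player.
-/

set_option autoImplicit false

namespace WWL

open Finset

variable {V : Type} [DecidableEq V] [Fintype V]

/-- The reserved points of the pairing `p`. -/
def Rv (p : V → V) : Finset V := univ.filter fun x => p x ≠ x

lemma mem_Rv {p : V → V} {x : V} : x ∈ Rv p ↔ p x ≠ x := by simp [Rv]

/-- `A` contains no pair. -/
def NoPair (p : V → V) (A : Finset V) : Prop := ∀ x ∈ A, x ∈ Rv p → p x ∉ A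

/-- The invariant without the potential. -/
structure Inv (F : Finset (Finset V)) (w h : ℕ) (X O : Finset V) (p : V → V) : Prop where
  disj : Disjoint X O
  invol : ∀ x, p (p x) = x
  pair : ∀ x ∈ Rv p, x ∈ X → p x ∈ O
  owner : ∀ x ∈ Rv p, ∃ G ∈ F, x ∈ G ∧ p x ∈ G ∧ (G \ (X \ Rv p)).card ≤ w + h
  uniq : ∀ G ∈ F, ∀ x ∈ Rv p, ∀ y ∈ Rv p, x ∈ G → p x ∈ G → y ∈ G → p y ∈ G → y = x ∨ y = p x
  undecl : ∀ A ∈ F, Disjoint A O → NoPair p A →
    (A ∩ Rv p).card ≤ h ∧ w + h < (A \ (X \ Rv p)).card

variable {F : Finset (Finset V)} {w h : ℕ} {X O : Finset V} {p : V → V}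

lemma Inv.p_mem (hI : Inv F w h X O p) {x : V} (hx : x ∈ Rv p) : p x ∈ Rv p := by
  rw [mem_Rv] at hx ⊢
  rw [hI.invol]
  exact fun h => hx h.symm

/-- Additional points of the second player do no harm. -/
lemma Inv.insert_O (hI : Inv F w h X O p) {y : V} (hy : y ∉ X) : Inv F w h X (insert y O) p where
  disj := by
    rw [Finset.disjoint_insert_right]
    exact ⟨hy, hI.disj⟩
  invol := hI.invol
  pair := fun x hx hX => Finset.mem_insert_of_mem (hI.pair x hx hX)
  owner := hI.owner
  uniq := hI.uniq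
  undecl := fun A hA hd hn => hI.undecl A hA (Disjoint.mono_right (Finset.subset_insert y O) hd) hn

/-- The first player takes a reserved point and the second player owns the other one. -/
lemma Inv.insert_X (hI : Inv F w h X O p) {v : V} (hv : v ∈ Rv p) (hvO : v ∉ O) (hp : p v ∈ O) :
    Inv F w h (insert v X) O p := by
  have h1 : insert v X \ Rv p = X \ Rv p := by
    ext z
    simp only [Finset.mem_sdiff, Finset.mem_insert]
    constructor
    · rintro ⟨rfl | h2, h3⟩
      · exact (h3 hv).elim
      · exact ⟨h2, h3⟩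
    · rintro ⟨h2, h3⟩
      exact ⟨Or.inr h2, h3⟩
  refine ⟨?_, hI.invol, ?_, ?_, hI.uniq, ?_⟩
  · rw [Finset.disjoint_insert_left]
    exact ⟨hvO, hI.disj⟩
  · intro x hx hX
    rw [Finset.mem_insert] at hX
    rcases hX with rfl | hX
    · exact hp
    · exact hI.pair x hx hX
  · rw [h1]
    exact hI.owner
  · rw [h1]
    exact hI.undecl

/-- The first player does not own a set of the family. -/
lemma Inv.not_own (hI : Inv F w h X O p) (hw : 1 ≤ w) {v : V} (hvO : v ∉ O) {A : Finset V}
    (hA : A ∈ F) (hsub : A ⊆ insert v X) : False := by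
  have hAO : Disjoint A O := by
    refine Disjoint.mono_left hsub ?_
    rw [Finset.disjoint_insert_left]
    exact ⟨hvO, hI.disj⟩
  by_cases hnp : NoPair p A
  · obtain ⟨h1, h2⟩ := hI.undecl A hA hAO hnp
    have h3 : A \ (X \ Rv p) ⊆ insert v (A ∩ Rv p) := by
      intro z hz
      rw [Finset.mem_sdiff, Finset.mem_sdiff] at hz
      rw [Finset.mem_insert, Finset.mem_inter]
      have h4 := hsub hz.1
      rw [Finset.mem_insert] at h4
      rcases h4 with h4 | h4
      · exact Or.inl h4
      · refine Or.inr ⟨hz.1, ?_⟩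
        by_contra h5
        exact hz.2 ⟨h4, h5⟩
    have h4 := Finset.card_le_card h3
    have h5 := Finset.card_insert_le v (A ∩ Rv p)
    omega
  · unfold NoPair at hnp
    push Not at hnp
    obtain ⟨x, hxA, hxR, hpA⟩ := hnp
    have hne := mem_Rv.1 hxR
    have h1 : ∀ z ∈ A, z ∉ O := fun z hz => Finset.disjoint_left.1 hAO hz
    have h2 := hsub hxA
    have h3 := hsub hpA
    rw [Finset.mem_insert] at h2 h3
    rcases h2 with h2 | h2
    · rcases h3 with h3 | h3
      · exact hne (h3.trans h2.symm)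
      · have h4 := hI.pair (p x) (hI.p_mem hxR) h3
        rw [hI.invol] at h4
        exact h1 x hxA h4
    · exact h1 (p x) hpA (hI.pair x hxR h2)

/-- The sets which are declared after the first player has taken `v`. -/
def batch (F : Finset (Finset V)) (w h : ℕ) (X O : Finset V) (p : V → V) (v : V) (A : Finset V) :
    Prop :=
  A ∈ F ∧ v ∈ A ∧ Disjoint A O ∧ NoPair p A ∧ (A \ (insert v X \ Rv p)).card ≤ w + h

/-- The good points of a set. -/
structure Good (F : Finset (Finset V)) (h : ℕ) (X O : Finset V) (p : V → V) (A : Finset V)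
    (x : V) : Prop where
  mem : x ∈ A
  nX : x ∉ X
  nO : x ∉ O
  nR : x ∉ Rv p
  good : ∀ H ∈ F, H ≠ A → x ∈ H → Disjoint H O → NoPair p H → (H ∩ Rv p).card + 2 ≤ h

/-- Reserve a pair in each set of the batch. -/
lemma Inv.reserve (hF : Sys F) (hI : Inv F w h X O p) {v : V} (hvX : v ∉ X) (hvO : v ∉ O)
    (hvR : v ∉ Rv p) (a b : Finset V → V)
    (ha : ∀ A, batch F w h X O p v A → Good F h (insert v X) O p A (a A))
    (hb : ∀ A, batch F w h X O p v A → Good F h (insert v X) O p A (b A))
    (hab : ∀ A, batch F w h X O p v A → a A ≠ b A) :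
    ∃ p' : V → V, Rv p ⊆ Rv p' ∧ Inv F w h (insert v X) O p' := by
  classical
  set N : Finset V → V → Prop := fun A x => batch F w h X O p v A ∧ (x = a A ∨ x = b A) with hN
  have hNG : ∀ A x, N A x → Good F h (insert v X) O p A x := by
    rintro A x ⟨h1, rfl | rfl⟩
    · exact ha A h1
    · exact hb A h1
  have hNv : ∀ A x, N A x → x ≠ v := by
    rintro A x hx rfl
    exact (hNG A x hx).nX (Finset.mem_insert_self _ _)
  have huni : ∀ A A' x, N A x → N A' x → A = A' := by
    intro A A' x hx hx'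
    exact hF.lin A hx.1.1 A' hx'.1.1 x v (hNv A x hx) (hNG A x hx).mem hx.1.2.1
      (hNG A' x hx').mem hx'.1.2.1
  set p' : V → V := fun x => if hx : ∃ A, N A x then
    (if x = a (Classical.choose hx) then b (Classical.choose hx) else a (Classical.choose hx))
    else p x with hp'
  have hpa : ∀ A, batch F w h X O p v A → p' (a A) = b A := by
    intro A hA
    have h1 : ∃ A', N A' (a A) := ⟨A, hA, Or.inl rfl⟩
    have h2 : Classical.choose h1 = A := huni _ _ _ (Classical.choose_spec h1) ⟨hA, Or.inl rfl⟩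
    simp only [hp']
    rw [dif_pos h1, h2, if_pos rfl]
  have hpb : ∀ A, batch F w h X O p v A → p' (b A) = a A := by
    intro A hA
    have h1 : ∃ A', N A' (b A) := ⟨A, hA, Or.inr rfl⟩
    have h2 : Classical.choose h1 = A := huni _ _ _ (Classical.choose_spec h1) ⟨hA, Or.inr rfl⟩
    simp only [hp']
    rw [dif_pos h1, h2, if_neg (hab A hA).symm]
  have hpo : ∀ x, (¬ ∃ A, N A x) → p' x = p x := by
    intro x hx
    simp only [hp']
    rw [dif_neg hx]
  have hRN : ∀ x ∈ Rv p, ¬ ∃ A, N A x := by
    rintro x hx ⟨A, hA⟩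
    exact (hNG A x hA).nR hx
  have hR1 : ∀ x ∈ Rv p, x ∈ Rv p' := by
    intro x hx
    rw [mem_Rv, hpo x (hRN x hx)]
    exact mem_Rv.1 hx
  have hR2 : ∀ A x, N A x → x ∈ Rv p' := by
    rintro A x ⟨hA, rfl | rfl⟩
    · rw [mem_Rv, hpa A hA]
      exact (hab A hA).symm
    · rw [mem_Rv, hpb A hA]
      exact hab A hA
  have hR3 : ∀ x ∈ Rv p', x ∈ Rv p ∨ ∃ A, N A x := by
    intro x hx
    by_cases h1 : ∃ A, N A x
    · exact Or.inr h1
    · left
      rw [mem_Rv] at hx ⊢
      rwa [hpo x h1] at hx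
  have hNp : ∀ A x, N A x → p' x ∈ A := by
    rintro A x ⟨hA, rfl | rfl⟩
    · rw [hpa A hA]
      exact (hb A hA).mem
    · rw [hpb A hA]
      exact (ha A hA).mem
  -- the points of the first player outside the reserved points
  have hM : insert v X \ Rv p' = insert v X \ Rv p := by
    ext z
    rw [Finset.mem_sdiff, Finset.mem_sdiff]
    constructor
    · rintro ⟨h1, h2⟩
      exact ⟨h1, fun h3 => h2 (hR1 z h3)⟩
    · rintro ⟨h1, h2⟩
      refine ⟨h1, fun h3 => ?_⟩
      rcases hR3 z h3 with h4 | ⟨A, hA⟩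
      · exact h2 h4
      · exact (hNG A z hA).nX h1
  have hM2 : X \ Rv p ⊆ insert v X \ Rv p := by
    intro z hz
    rw [Finset.mem_sdiff] at hz ⊢
    exact ⟨Finset.mem_insert_of_mem hz.1, hz.2⟩
  -- a set which contains a new pair
  have hpairA : ∀ A x, N A x → ∀ G ∈ F, x ∈ G → p' x ∈ G → G = A := by
    intro A x hx G hG h1 h2
    exact hF.lin G hG A hx.1.1 x (p' x) (Ne.symm (mem_Rv.1 (hR2 A x hx))) h1 h2 (hNG A x hx).mem
      (hNp A x hx)
  refine ⟨p', hR1, ⟨?_, ?_, ?_, ?_, ?_, ?_⟩⟩
  · rw [Finset.disjoint_insert_left]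
    exact ⟨hvO, hI.disj⟩
  · intro x
    by_cases h1 : ∃ A, N A x
    · obtain ⟨A, hA, rfl | rfl⟩ := h1
      · rw [hpa A hA, hpb A hA]
      · rw [hpb A hA, hpa A hA]
    · rw [hpo x h1]
      by_cases h2 : x ∈ Rv p
      · rw [hpo _ (hRN _ (hI.p_mem h2)), hI.invol]
      · rw [mem_Rv, not_not] at h2
        rw [h2, hpo x h1, h2]
  · intro x hx hxX
    rcases hR3 x hx with h1 | ⟨A, hA⟩
    · rw [hpo x (hRN x h1)]
      apply hI.pair x h1
      rcases Finset.mem_insert.1 hxX with rfl | h2
      · exact (hvR h1).elim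
      · exact h2
    · exact ((hNG A x hA).nX hxX).elim
  · intro x hx
    rw [hM]
    rcases hR3 x hx with h1 | ⟨A, hA⟩
    · obtain ⟨G, hG, h2, h3, h4⟩ := hI.owner x h1
      refine ⟨G, hG, h2, ?_, ?_⟩
      · rw [hpo x (hRN x h1)]
        exact h3
      · exact (Finset.card_le_card (Finset.sdiff_subset_sdiff (Finset.Subset.refl G) hM2)).trans h4
    · exact ⟨A, hA.1.1, (hNG A x hA).mem, hNp A x hA, hA.1.2.2.2.2⟩
  · intro G hG x hx y hy hxG hpxG hyG hpyG
    rcases hR3 x hx with h1 | ⟨A, hA⟩
    · rw [hpo x (hRN x h1)] at hpxG ⊢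
      rcases hR3 y hy with h2 | ⟨A', hA'⟩
      · rw [hpo y (hRN y h2)] at hpyG
        exact hI.uniq G hG x h1 y h2 hxG hpxG hyG hpyG
      · have h3 := hpairA A' y hA' G hG hyG hpyG
        subst h3
        exact (hA'.1.2.2.2.1 x hxG h1 hpxG).elim
    · have h3 := hpairA A x hA G hG hxG hpxG
      subst h3
      rcases hR3 y hy with h2 | ⟨A', hA'⟩
      · rw [hpo y (hRN y h2)] at hpyG
        exact (hA.1.2.2.2.1 y hyG h2 hpyG).elim
      · have h4 := hpairA A' y hA' G hG hyG hpyG
        subst h4
        obtain ⟨h5, h6 | h6⟩ := hA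
        · obtain ⟨h7, h8 | h8⟩ := hA'
          · exact Or.inl (h8.trans h6.symm)
          · right
            rw [h6, hpa G h5, h8]
        · obtain ⟨h7, h8 | h8⟩ := hA'
          · right
            rw [h6, hpb G h5, h8]
          · exact Or.inl (h8.trans h6.symm)
  · intro A hA hAO hnp
    rw [hM]
    have hnp0 : NoPair p A := by
      intro x hxA hxR hpx
      apply hnp x hxA (hR1 x hxR)
      rw [hpo x (hRN x hxR)]
      exact hpx
    obtain ⟨h1, h2⟩ := hI.undecl A hA hAO hnp0
    have hnb : ¬ batch F w h X O p v A := by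
      intro hB
      apply hnp (a A) (ha A hB).mem (hR2 A (a A) ⟨hB, Or.inl rfl⟩)
      rw [hpa A hB]
      exact (hb A hB).mem
    constructor
    · -- the reserved points
      by_cases hex : ∃ x ∈ A, ∃ A', N A' x
      · obtain ⟨x, hxA, A', hA'⟩ := hex
        have hne : A ≠ A' := by
          rintro rfl
          exact hnb hA'.1
        have h3 := (hNG A' x hA').good A hA hne hxA hAO hnp0
        have hvA : v ∉ A := by
          intro h4
          exact hne (hF.lin A hA A' hA'.1.1 x v (hNv A' x hA') hxA h4 (hNG A' x hA').mem hA'.1.2.1)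
        have h5 : ((A ∩ Rv p').filter fun y => ∃ A', N A' y).card ≤ 2 := by
          refine le_trans ?_ (hF.tri A hA v hvA)
          apply Finset.card_le_card_of_injOn
            (fun y => if hy : ∃ A', N A' y then Classical.choose hy else ∅)
          · intro y hy
            rw [Finset.mem_coe, Finset.mem_filter, Finset.mem_inter] at hy
            obtain ⟨⟨h6, -⟩, h7⟩ := hy
            have h8 := Classical.choose_spec h7
            simp only [dif_pos h7]
            rw [Finset.mem_coe, Finset.mem_filter]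
            refine ⟨h8.1.1, h8.1.2.1, ?_⟩
            rw [Finset.not_disjoint_iff]
            exact ⟨y, (hNG _ y h8).mem, h6⟩
          · intro y hy y' hy' he
            rw [Finset.mem_coe, Finset.mem_filter, Finset.mem_inter] at hy hy'
            obtain ⟨⟨h6, -⟩, h7⟩ := hy
            obtain ⟨⟨h6', -⟩, h7'⟩ := hy'
            simp only [dif_pos h7, dif_pos h7'] at he
            have h8 := Classical.choose_spec h7
            have h8' := Classical.choose_spec h7'
            rw [← he] at h8'
            by_contra hyy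
            have h9 := hF.lin _ h8.1.1 A hA y y' hyy (hNG _ y h8).mem (hNG _ y' h8').mem h6 h6'
            rw [h9] at h8
            exact hnb h8.1
        have h6 : A ∩ Rv p' ⊆ (A ∩ Rv p) ∪ ((A ∩ Rv p').filter fun y => ∃ A', N A' y) := by
          intro y hy
          rw [Finset.mem_union, Finset.mem_filter, Finset.mem_inter]
          rcases hR3 y (Finset.mem_inter.1 hy).2 with h7 | h7
          · exact Or.inl ⟨(Finset.mem_inter.1 hy).1, h7⟩
          · exact Or.inr ⟨hy, h7⟩
        have h7 := Finset.card_le_card h6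
        have h8 := Finset.card_union_le (A ∩ Rv p) ((A ∩ Rv p').filter fun y => ∃ A', N A' y)
        omega
      · refine le_trans (Finset.card_le_card ?_) h1
        intro y hy
        rw [Finset.mem_inter] at hy ⊢
        refine ⟨hy.1, ?_⟩
        rcases hR3 y hy.2 with h7 | h7
        · exact h7
        · exact (hex ⟨y, hy.1, h7⟩).elim
    · by_cases hvA : v ∈ A
      · by_contra h3
        exact hnb ⟨hA, hvA, hAO, hnp0, by omega⟩
      · have h3 : A \ (insert v X \ Rv p) = A \ (X \ Rv p) := by
          ext z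
          simp only [Finset.mem_sdiff, Finset.mem_insert]
          constructor
          · rintro ⟨h4, h5⟩
            exact ⟨h4, fun h6 => h5 ⟨Or.inr h6.1, h6.2⟩⟩
          · rintro ⟨h4, h5⟩
            refine ⟨h4, ?_⟩
            rintro ⟨rfl | h6, h7⟩
            · exact hvA h4
            · exact h5 ⟨h6, h7⟩
        rw [h3]
        exact h2

end WWL
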