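import Mathlib
import Pool.Agent.WWL.Strategy

/-!
The second player prevents the first player from owning a set of the family.
-/

set_option autoImplicit false

namespace WWL

open Finset

variable {V : Type} [DecidableEq V] [Fintype V]

/-- The parameters of the strategy. -/
structure Par (F : Finset (Finset V)) (n w h s r m q : ℕ) : Prop where
  sys : Sys F
  hn : ∀ K ∈ F, K.card ≤ n
  hw : 1 ≤ w
  hm : 0 < m
  hq : (w + h) + s + r ≤ q
  hcomb : 4 * (m * (r * n) * ((s + 1) * s + 2 * (m * (r * n)))) <
      (w - m) * (h - r) * ((s + 1) * ((s + 1) * s))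

variable {F : Finset (Finset V)} {n w h s r m q : ℕ} {X O : Finset V} {p : V → V}

/-- Each declared set has two good points. -/
lemma two_good (hP : Par F n w h s r m q) (hI : Inv F w h X O p) {v : V} (hvX : v ∉ X)
    (hvO : v ∉ O) (hvR : v ∉ Rv p)
    (hPsi : Psi (cfgSet F q r m) win (insert v X) (O ∪ Rv p) < 1) {A : Finset V}
    (hA : batch F w h X O p v A) :
    ∃ x y, x ≠ y ∧ Good F h (insert v X) O p A x ∧ Good F h (insert v X) O p A y := by
  classical
  by_contra hcon
  push Not at hcon
  obtain ⟨hAF, hvA, hAO, hnp, hAc⟩ := hA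
  obtain ⟨h1, h2⟩ := hI.undecl A hAF hAO hnp
  have hXO : Disjoint (insert v X) O := by
    rw [Finset.disjoint_insert_left]
    exact ⟨hvO, hI.disj⟩
  -- the free unreserved points of `A`
  set W : Finset V := A \ (insert v X ∪ Rv p) with hW
  have hWc : w ≤ W.card := by
    have h3 : A \ (X \ Rv p) ⊆ insert v (W ∪ (A ∩ Rv p)) := by
      intro z hz
      rw [Finset.mem_sdiff, Finset.mem_sdiff] at hz
      rw [Finset.mem_insert, Finset.mem_union, Finset.mem_inter, hW, Finset.mem_sdiff,
        Finset.mem_union, Finset.mem_insert]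
      by_cases h4 : z ∈ Rv p
      · exact Or.inr (Or.inr ⟨hz.1, h4⟩)
      · by_cases h5 : z = v
        · exact Or.inl h5
        · refine Or.inr (Or.inl ⟨hz.1, ?_⟩)
          rintro ((h6 | h6) | h6)
          · exact h5 h6
          · exact hz.2 ⟨h6, h4⟩
          · exact h4 h6
    have h4 := Finset.card_le_card h3
    have h5 := Finset.card_insert_le v (W ∪ (A ∩ Rv p))
    have h6 := Finset.card_union_le W (A ∩ Rv p)
    omega
  set Bd : Finset V := W.filter fun x => ¬ Good F h (insert v X) O p A x with hBd
  have hBc : w ≤ Bd.card + 1 := by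
    have h3 : (W.filter fun x => Good F h (insert v X) O p A x).card ≤ 1 := by
      rw [Finset.card_le_one]
      intro x hx y hy
      rw [Finset.mem_filter] at hx hy
      by_contra hxy
      exact hcon x y hxy hx.2 hy.2
    have h4 : W ⊆ (W.filter fun x => Good F h (insert v X) O p A x) ∪ Bd := by
      intro x hx
      rw [Finset.mem_union, Finset.mem_filter, hBd, Finset.mem_filter]
      tauto
    have h5 := Finset.card_le_card h4
    have h6 := Finset.card_union_le (W.filter fun x => Good F h (insert v X) O p A x) Bd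
    omega
  have hbad : ∀ x ∈ Bd, ∃ H ∈ F, H ≠ A ∧ x ∈ H ∧ Disjoint H O ∧ NoPair p H ∧
      h ≤ (H ∩ Rv p).card + 1 := by
    intro x hx
    rw [hBd, Finset.mem_filter, hW, Finset.mem_sdiff, Finset.mem_union] at hx
    obtain ⟨⟨h3, h4⟩, h5⟩ := hx
    by_contra h6
    push Not at h6
    apply h5
    refine ⟨h3, fun h7 => h4 (Or.inl h7), Finset.disjoint_left.1 hAO h3,
      fun h7 => h4 (Or.inr h7), ?_⟩
    intro H hH hne hxH hHO hHn
    have := h6 H hH hne hxH hHO hHn
    omega
  choose! H hH using hbad
  have how : ∀ y ∈ Rv p, ∃ G ∈ F, y ∈ G ∧ p y ∈ G ∧ (G \ (X \ Rv p)).card ≤ w + h := hI.owner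
  choose! G hG using how
  have hB : Bad F n w h (w + h) (insert v X \ Rv p) (Rv p) A Bd H G := by
    refine ⟨hP.hn, hAF, ?_, hBc, ?_, ?_, ?_, ?_, ?_, ?_, ?_, ?_, ?_, ?_⟩
    · intro x hx
      rw [hBd, Finset.mem_filter, hW, Finset.mem_sdiff] at hx
      exact hx.1.1
    · intro x hx hxR
      rw [hBd, Finset.mem_filter, hW, Finset.mem_sdiff, Finset.mem_union] at hx
      exact hx.1.2 (Or.inr hxR)
    · exact fun x hx => (hH x hx).1
    · exact fun x hx => (hH x hx).2.2.1
    · exact fun x hx => (hH x hx).2.1
    · exact fun x hx => (hH x hx).2.2.2.2.2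
    · exact fun y hy => (hG y hy).1
    · exact fun y hy => (hG y hy).2.1
    · intro y hy
      refine le_trans (Finset.card_le_card ?_) (hG y hy).2.2.2
      apply Finset.sdiff_subset_sdiff (Finset.Subset.refl _)
      intro z hz
      rw [Finset.mem_sdiff] at hz ⊢
      exact ⟨Finset.mem_insert_of_mem hz.1, hz.2⟩
    · intro K hK
      rcases Finset.eq_empty_or_nonempty ((Rv p).filter fun y => G y = K) with h3 | ⟨x, hx⟩
      · rw [h3]
        simp
      · rw [Finset.mem_filter] at hx
        have h3 : (Rv p).filter (fun y => G y = K) ⊆ {x, p x} := by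
          intro y hy
          rw [Finset.mem_filter] at hy
          rw [Finset.mem_insert, Finset.mem_singleton]
          have h4 := hG x hx.1
          have h5 := hG y hy.1
          rw [hx.2] at h4
          rw [hy.2] at h5
          exact hI.uniq K hK x hx.1 y hy.1 h4.2.1 h4.2.2.1 h5.2.1 h5.2.2.1
        exact (Finset.card_le_card h3).trans Finset.card_le_two
    · intro x hx y hy he
      rw [Finset.mem_inter] at hy
      have h3 := hG y hy.2
      have h4 := (hH x hx).2.2.2.2.1 y hy.1 hy.2
      rw [← he] at h4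
      exact h4 h3.2.2.1
  obtain ⟨c, hc, hcM⟩ := exists_cfg hP.sys hB s r m q hP.hm hP.hcomb hP.hq
  have h3 : 1 ≤ Psi (cfgSet F q r m) win (insert v X) (O ∪ Rv p) := by
    apply one_le_Psi hc
    · exact hcM.trans Finset.sdiff_subset
    · rw [Finset.disjoint_union_right]
      constructor
      · exact Disjoint.mono_left (hcM.trans Finset.sdiff_subset) hXO
      · rw [Finset.disjoint_left]
        intro z hz
        exact (Finset.mem_sdiff.1 (hcM hz)).2
  linarith

/-- The first player cannot win. -/
lemma no_win (hP : Par F n w h s r m q) {line : Finset V → Prop}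
    (hline : ∀ l, line l → ∃ A ∈ F, A ⊆ l) :
    ∀ X O, WW.WeakWins line X O → ∀ p, Inv F w h X O p →
      Safe (cfgSet F q r m) win X (O ∪ Rv p) → False := by
  classical
  intro X O hwin
  induction hwin with
  | own X O v hX hO hl =>
    intro p hI _
    obtain ⟨l, hl, hsub⟩ := hl
    obtain ⟨A, hA, hAl⟩ := hline l hl
    exact hI.not_own hP.hw hO hA (hAl.trans hsub)
  | move X O v hX hO hfree _ ih =>
    intro p hI hS
    by_cases hv : v ∈ Rv p
    · -- a reserved point
      have hS' : Safe (cfgSet F q r m) win (insert v X) (O ∪ Rv p) :=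
        hS.dead (Finset.mem_union_right _ hv)
      have key : ∀ y, y ∉ insert v X → y ∉ O → (p v ∈ insert y O) → False := by
        intro y hyX hyO hpy
        apply ih y hyX hyO p
        · have h1 : y ∉ X := fun h => hyX (Finset.mem_insert_of_mem h)
          apply (hI.insert_O h1).insert_X hv _ hpy
          rw [Finset.mem_insert]
          rintro (rfl | h2)
          · exact hyX (Finset.mem_insert_self _ _)
          · exact hO h2
        · apply hS'.mono
          exact Finset.union_subset_union (Finset.subset_insert y O) (Finset.Subset.refl _)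
      by_cases hpO : p v ∈ O
      · obtain ⟨y, hy1, hy2⟩ := hfree
        exact key y hy1 hy2 (Finset.mem_insert_of_mem hpO)
      · apply key (p v) _ hpO (Finset.mem_insert_self _ _)
        rw [Finset.mem_insert]
        rintro (h1 | h1)
        · exact mem_Rv.1 hv h1
        · have h2 := hI.pair (p v) (hI.p_mem hv) h1
          rw [hI.invol] at h2
          exact hO h2
    · -- a point of the big board
      have hPsi : Psi (cfgSet F q r m) win (insert v X) (O ∪ Rv p) < 1 := by
        rw [Psi_insert_X hX]
        apply hS v hX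
        rw [Finset.mem_union]
        tauto
      have hg : ∀ A, batch F w h X O p v A → ∃ x y, x ≠ y ∧ Good F h (insert v X) O p A x ∧
          Good F h (insert v X) O p A y := fun A hA => two_good hP hI hX hO hv hPsi hA
      haveI : Nonempty V := ⟨v⟩
      choose! a b hab ha hb using hg
      obtain ⟨p', hR, hI'⟩ := hI.reserve hP.sys hX hO hv a b ha hb hab
      have hPsi' : Psi (cfgSet F q r m) win (insert v X) (O ∪ Rv p') < 1 :=
        lt_of_le_of_lt (Psi_mono (Finset.union_subset_union (Finset.Subset.refl _) hR)) hPsi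
      by_cases hex : ∃ y, y ∉ insert v X ∧ y ∉ O ∪ Rv p'
      · -- the largest weight
        have hne : ((insert v X ∪ (O ∪ Rv p'))ᶜ).Nonempty := by
          obtain ⟨y, hy1, hy2⟩ := hex
          refine ⟨y, ?_⟩
          rw [Finset.mem_compl, Finset.mem_union]
          tauto
        obtain ⟨y, hy, hmax⟩ := Finset.exists_max_image _
          (fun y => wt (cfgSet F q r m) win (insert v X) (O ∪ Rv p') y) hne
        rw [Finset.mem_compl, Finset.mem_union, not_or] at hy
        have hyO : y ∉ O := fun h1 => hy.2 (Finset.mem_union_left _ h1)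
        apply ih y hy.1 hyO p' (hI'.insert_O hy.1)
        rw [Finset.insert_union]
        apply safe_reply hPsi'
        intro x hx hxD
        apply hmax
        rw [Finset.mem_compl, Finset.mem_union]
        tauto
      · obtain ⟨y, hy1, hy2⟩ := hfree
        apply ih y hy1 hy2 p' (hI'.insert_O hy1)
        intro x hx hxD
        exfalso
        apply hex
        refine ⟨x, hx, fun h1 => hxD ?_⟩
        rw [Finset.insert_union]
        exact Finset.mem_insert_of_mem h1

/-- **The strategy.** -/
theorem strong_draw (hP : Par F n w h s r m q) {line : Finset V → Prop}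
    (hline : ∀ l, line l → ∃ A ∈ F, A ⊆ l) (hbig : ∀ A ∈ F, w + h < A.card) {Lam : ℕ} {lam : ℝ}
    (hlam0 : 0 ≤ lam) (hlam : ∀ x, ∑ G ∈ F with x ∈ G, (1 / 2 : ℝ) ^ G.card ≤ lam)
    (hLam : ∀ x, (F.filter fun G => x ∈ G).card ≤ Lam)
    (hsum : (F.card : ℝ) * (n * (Lam * (n * ((2 * n) ^ q * lam)) ^ r)) ^ m < 1 / 2) :
    ¬ WW.WeakWins line ∅ ∅ := by
  intro hwin
  have hR : Rv (id : V → V) = ∅ := by
    ext x
    simp [Rv]
  refine no_win hP hline ∅ ∅ hwin id ⟨?_, ?_, ?_, ?_, ?_, ?_⟩ ?_
  · exact Finset.disjoint_empty_left _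
  · exact fun x => rfl
  · intro x hx
    rw [hR] at hx
    simp at hx
  · intro x hx
    rw [hR] at hx
    simp at hx
  · intro G _ x hx
    rw [hR] at hx
    simp at hx
  · intro A hA _ _
    rw [hR]
    simp only [Finset.inter_empty, Finset.card_empty, Finset.sdiff_self, Finset.sdiff_empty]
    exact ⟨Nat.zero_le _, hbig A hA⟩
  · rw [hR, Finset.empty_union]
    apply safe_init
    exact lt_of_le_of_lt (sum_cfgSet hlam0 hlam hLam hP.hn) hsum

end WWL
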