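import Mathlib
import Pool.Agent.WW.Lines
import Pool.Agent.WWL.Rich

/-!
A point off a line of `[n]^d` is joined to at most two points of the line by lines of which neither
of the two points is the middle point.
-/

set_option autoImplicit false

namespace WWL

open Finset WW

variable {n d : ℕ}

/-- Coordinates of two points on a line, neither of which is the middle point of the line. -/
def Joined (x y : Fin d → Fin n) : Prop :=
  ∃ u v : Fin n, Fin.rev u ≠ u ∧ Fin.rev v ≠ v ∧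
    ∀ i, x i = y i ∨ (x i = u ∧ y i = v) ∨ (x i = Fin.rev u ∧ y i = Fin.rev v)

lemma Joined.norm {x y : Fin d → Fin n} (h : Joined x y) {e : Fin d} (he : x e ≠ y e) :
    Fin.rev (x e) ≠ x e ∧ ∀ i, x i = y i ∨ (x i = x e ∧ y i = y e) ∨
      (x i = Fin.rev (x e) ∧ y i = Fin.rev (y e)) := by
  obtain ⟨u, v, hu, hv, h⟩ := h
  rcases (h e).resolve_left he with ⟨h1, h2⟩ | ⟨h1, h2⟩
  · rw [h1, h2]
    exact ⟨hu, h⟩
  · rw [h1, h2, Fin.rev_rev, Fin.rev_rev]
    refine ⟨fun h3 => hu h3.symm, fun i => ?_⟩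
    rcases h i with h4 | h4 | h4
    · exact Or.inl h4
    · exact Or.inr (Or.inr h4)
    · exact Or.inr (Or.inl h4)

lemma joined_pt {a : Fin d → Fin n} {s : Fin d → Fin 3} {u v : Fin n} (hu : Fin.rev u ≠ u)
    (hv : Fin.rev v ≠ v) : Joined (pt Fin.rev a s u) (pt Fin.rev a s v) := by
  refine ⟨u, v, hu, hv, fun i => ?_⟩
  by_cases h0 : s i = 0
  · left
    rw [pt_of_zero h0, pt_of_zero h0]
  · rcases fin3 (s i) h0 with h | h
    · right; left
      rw [pt_of_one h, pt_of_one h]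
      exact ⟨rfl, rfl⟩
    · right; right
      rw [pt_of_two h, pt_of_two h]
      exact ⟨rfl, rfl⟩

/-- The core of the fact. -/
lemma core {a : Fin d → Fin n} {s : Fin d → Fin 3} (hs : ∃ i, s i ≠ 0) {x : Fin d → Fin n}
    (hx : ∀ t, x ≠ pt Fin.rev a s t) {t₁ t₂ t₃ : Fin n} (h12 : t₁ ≠ t₂) (h13 : t₁ ≠ t₃)
    (h23 : t₂ ≠ t₃) (h1 : Joined x (pt Fin.rev a s t₁)) (h2 : Joined x (pt Fin.rev a s t₂))
    (h3 : Joined x (pt Fin.rev a s t₃)) : False := by
  by_cases hE : ∃ e, s e = 0 ∧ x e ≠ a e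
  · obtain ⟨e, he0, he⟩ := hE
    obtain ⟨i, hi⟩ := hs
    have g : ∀ t, Joined x (pt Fin.rev a s t) → Fin.rev (x e) ≠ x e ∧
        (x i = pt Fin.rev a s t i ∨ (x i = x e ∧ pt Fin.rev a s t i = a e) ∨
        (x i = Fin.rev (x e) ∧ pt Fin.rev a s t i = Fin.rev (a e))) := by
      intro t ht
      have h4 : x e ≠ pt Fin.rev a s t e := by rwa [pt_of_zero he0]
      have h5 := ht.norm h4
      refine ⟨h5.1, ?_⟩
      have h6 := h5.2 i
      rwa [pt_of_zero he0] at h6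
    have e12 : pt Fin.rev a s t₁ i ≠ pt Fin.rev a s t₂ i := fun h => hi ((pt_ne inv_rev a s h12 i).1 h)
    have e13 : pt Fin.rev a s t₁ i ≠ pt Fin.rev a s t₃ i := fun h => hi ((pt_ne inv_rev a s h13 i).1 h)
    have e23 : pt Fin.rev a s t₂ i ≠ pt Fin.rev a s t₃ i := fun h => hi ((pt_ne inv_rev a s h23 i).1 h)
    obtain ⟨hr, g1⟩ := g t₁ h1
    obtain ⟨-, g2⟩ := g t₂ h2
    obtain ⟨-, g3⟩ := g t₃ h3
    generalize pt Fin.rev a s t₁ i = y₁ at *
    generalize pt Fin.rev a s t₂ i = y₂ at *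
    generalize pt Fin.rev a s t₃ i = y₃ at *
    generalize Fin.rev (x e) = r at *
    generalize Fin.rev (a e) = r' at *
    rcases g1 with g1 | ⟨g1, g1'⟩ | ⟨g1, g1'⟩ <;> rcases g2 with g2 | ⟨g2, g2'⟩ | ⟨g2, g2'⟩ <;>
      rcases g3 with g3 | ⟨g3, g3'⟩ | ⟨g3, g3'⟩ <;> grind
  · push Not at hE
    -- the normalised coordinates
    set z : Fin d → Fin n := fun i => if s i = 1 then x i else Fin.rev (x i) with hz
    have g : ∀ t, Joined x (pt Fin.rev a s t) → ∃ b, ∀ i, s i ≠ 0 → z i = t ∨ z i = b := by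
      rintro t ⟨u, v, hu, hv, h⟩
      refine ⟨if t = v then u else Fin.rev u, fun i hi => ?_⟩
      have h4 := h i
      rcases fin3 (s i) hi with h5 | h5
      · rw [pt_of_one h5] at h4
        simp only [hz, h5, if_true]
        rcases h4 with h4 | ⟨h4, h6⟩ | ⟨h4, h6⟩
        · exact Or.inl h4
        · right
          rw [if_pos h6]
          exact h4
        · right
          rw [if_neg, h4]
          rintro rfl
          exact hv h6.symm
      · rw [pt_of_two h5] at h4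
        have h7 : ¬ (s i = 1) := by
          rw [h5]
          decide
        simp only [hz, h7, if_false]
        rcases h4 with h4 | ⟨h4, h6⟩ | ⟨h4, h6⟩
        · left
          rw [h4, Fin.rev_rev]
        · right
          rw [if_neg, h4]
          rintro rfl
          exact hv h6
        · right
          rw [if_pos (Fin.rev_injective h6), h4, Fin.rev_rev]
    have hne : ∀ t, ∃ i, s i ≠ 0 ∧ z i ≠ t := by
      intro t
      by_contra hcon
      push Not at hcon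
      apply hx t
      funext i
      by_cases h0 : s i = 0
      · rw [pt_of_zero h0, hE i h0]
      · have h4 := hcon i h0
        rcases fin3 (s i) h0 with h5 | h5
        · rw [pt_of_one h5]
          simpa only [hz, h5, if_true] using h4
        · rw [pt_of_two h5]
          have h7 : ¬ (s i = 1) := by
            rw [h5]
            decide
          simp only [hz, h7, if_false] at h4
          rw [← h4, Fin.rev_rev]
    obtain ⟨b₁, g1⟩ := g t₁ h1
    obtain ⟨b₂, g2⟩ := g t₂ h2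
    obtain ⟨b₃, g3⟩ := g t₃ h3
    obtain ⟨i₂, hi₂, k₂⟩ := hne b₂
    obtain ⟨i₃, hi₃, k₃⟩ := hne b₃
    have f2 := (g2 i₂ hi₂).resolve_right k₂
    have f3 := (g3 i₃ hi₃).resolve_right k₃
    have f4 := g1 i₂ hi₂
    have f5 := g1 i₃ hi₃
    rw [f2] at f4
    rw [f3] at f5
    have f6 := f4.resolve_left h12.symm
    have f7 := f5.resolve_left h13.symm
    exact h23 (f6.trans f7.symm)

/-- The points of a part of a line without the middle point. -/
structure Trunc (A S : Finset (Fin d → Fin n)) : Prop where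
  isL : IsL Fin.rev A
  sub : ∃ (a : Fin d → Fin n) (s : Fin d → Fin 3), (∃ i, s i ≠ 0) ∧
    A = univ.image (pt Fin.rev a s) ∧ ∀ x ∈ S, ∃ t, Fin.rev t ≠ t ∧ x = pt Fin.rev a s t

lemma Trunc.subset {A S : Finset (Fin d → Fin n)} (h : Trunc A S) : S ⊆ A := by
  obtain ⟨a, s, -, hA, hS⟩ := h.sub
  intro x hx
  obtain ⟨t, -, rfl⟩ := hS x hx
  rw [hA]
  exact Finset.mem_image_of_mem _ (Finset.mem_univ _)

/-- The family of the truncated lines. -/
lemma sys_trunc {F : Finset (Finset (Fin d → Fin n))}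
    {T : Finset (Fin d → Fin n) → Finset (Fin d → Fin n)}
    (hF : ∀ S ∈ F, ∃ A, Trunc A S ∧ S = T A) : Sys F := by
  classical
  have hlin : ∀ A ∈ F, ∀ A' ∈ F, ∀ x y, x ≠ y → x ∈ A → y ∈ A → x ∈ A' → y ∈ A' → A = A' := by
    intro S hS S' hS' x y hxy hx hy hx' hy'
    obtain ⟨A, hA, rfl⟩ := hF S hS
    obtain ⟨A', hA', rfl⟩ := hF S' hS'
    have := line_unique inv_rev hA.isL hA'.isL hxy (hA.subset hx) (hA.subset hy)
      (hA'.subset hx') (hA'.subset hy')
    rw [this]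
  refine ⟨hlin, ?_⟩
  intro M hM x hx
  by_contra hcon
  rw [not_le, Finset.two_lt_card] at hcon
  obtain ⟨L₁, hL₁, L₂, hL₂, L₃, hL₃, h12, h13, h23⟩ := hcon
  obtain ⟨B, hB, rfl⟩ := hF M hM
  obtain ⟨a, s, hs, hBa, hMt⟩ := hB.sub
  have g : ∀ L ∈ F.filter (fun L => x ∈ L ∧ ¬ Disjoint L (T B)), ∃ A, Trunc A L ∧ L = T A ∧
      x ∈ A ∧ (∀ t, x ≠ pt Fin.rev a s t) ∧ ∃ t, pt Fin.rev a s t ∈ A ∧
      x ≠ pt Fin.rev a s t ∧ Joined x (pt Fin.rev a s t) := by
    intro L hL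
    rw [Finset.mem_filter, Finset.not_disjoint_iff] at hL
    obtain ⟨hLF, hxL, y, hyL, hyM⟩ := hL
    obtain ⟨A, hA, hLT⟩ := hF L hLF
    obtain ⟨t, -, rfl⟩ := hMt y hyM
    have hxy : x ≠ pt Fin.rev a s t := by
      rintro rfl
      exact hx hyM
    have hxB : ∀ t', x ≠ pt Fin.rev a s t' := by
      rintro t' h4
      have h5 : x ∈ B := by
        rw [hBa, h4]
        exact Finset.mem_image_of_mem _ (Finset.mem_univ _)
      have h6 := line_unique inv_rev hA.isL hB.isL hxy (hA.subset hxL) (hA.subset hyL) h5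
        (hB.subset hyM)
      rw [h6] at hLT
      rw [hLT] at hxL
      exact hx hxL
    refine ⟨A, hA, hLT, hA.subset hxL, hxB, t, hA.subset hyL, hxy, ?_⟩
    obtain ⟨a', s', -, -, hLt⟩ := hA.sub
    obtain ⟨u, hu, hxu⟩ := hLt x hxL
    obtain ⟨v, hv, hyv⟩ := hLt _ hyL
    rw [hxu, hyv]
    exact joined_pt hu hv
  obtain ⟨A₁, hA₁, e₁, x₁, hxB, t₁, y₁, ne₁, j₁⟩ := g L₁ hL₁
  obtain ⟨A₂, hA₂, e₂, x₂, -, t₂, y₂, ne₂, j₂⟩ := g L₂ hL₂
  obtain ⟨A₃, hA₃, e₃, x₃, -, t₃, y₃, ne₃, j₃⟩ := g L₃ hL₃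
  apply core hs hxB ?_ ?_ ?_ j₁ j₂ j₃
  · rintro rfl
    apply h12
    rw [e₁, e₂, line_unique inv_rev hA₁.isL hA₂.isL ne₁ x₁ y₁ x₂ y₂]
  · rintro rfl
    apply h13
    rw [e₁, e₃, line_unique inv_rev hA₁.isL hA₃.isL ne₁ x₁ y₁ x₃ y₃]
  · rintro rfl
    apply h23
    rw [e₂, e₃, line_unique inv_rev hA₂.isL hA₃.isL ne₂ x₂ y₂ x₃ y₃]

end WWL
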