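import Mathlib
import Pool.Agent.WW.Final
import Pool.Agent.WWL.Geometry
import Pool.Agent.WWL.Draw

/-!
The truncation of the lines and the degrees of the family of the truncated lines.
-/

set_option autoImplicit false

namespace WWL

open Finset WW

variable {n d : ℕ}

/-- The number of the constant coordinates with the value `t` or `rev t`. -/
def pc (a : Fin d → Fin n) (s : Fin d → Fin 3) (t : Fin n) : ℕ :=
  (univ.filter fun i => s i = 0 ∧ (a i = t ∨ a i = Fin.rev t)).card

/-- The parameters which are kept. -/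
def keep (P : ℕ) (a : Fin d → Fin n) (s : Fin d → Fin 3) : Finset (Fin n) :=
  univ.filter fun t => Fin.rev t ≠ t ∧ pc a s t ≤ P

/-- The truncated line. -/
def tr (P : ℕ) (a : Fin d → Fin n) (s : Fin d → Fin 3) : Finset (Fin d → Fin n) :=
  (keep P a s).image (pt Fin.rev a s)

lemma mem_tr {P : ℕ} {a : Fin d → Fin n} {s : Fin d → Fin 3} {x : Fin d → Fin n} :
    x ∈ tr P a s ↔ ∃ t, Fin.rev t ≠ t ∧ pc a s t ≤ P ∧ x = pt Fin.rev a s t := by
  simp only [tr, keep, Finset.mem_image, Finset.mem_filter, Finset.mem_univ, true_and]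
  constructor
  · rintro ⟨t, ⟨h1, h2⟩, h3⟩
    exact ⟨t, h1, h2, h3.symm⟩
  · rintro ⟨t, h1, h2, h3⟩
    exact ⟨t, ⟨h1, h2⟩, h3.symm⟩

lemma card_tr {P : ℕ} {a : Fin d → Fin n} {s : Fin d → Fin 3} (hs : ∃ i, s i ≠ 0) :
    (tr P a s).card = (keep P a s).card :=
  Finset.card_image_of_injective _ (pt_injective inv_rev a s hs)

lemma isL_of_isLine (hn : 1 ≤ n) {l : Finset (Fin d → Fin n)} (hl : IsLine n d l) :
    IsL Fin.rev l := by
  classical
  obtain ⟨x, hx, ⟨i₀, hi₀⟩, rfl⟩ := hl
  set s : Fin d → Fin 3 := fun i => if (∃ a, ∀ t, x t i = a) then 0 else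
    if (∀ t, x t i = t) then 1 else 2 with hs
  refine ⟨x ⟨0, hn⟩, s, ⟨i₀, ?_⟩, ?_⟩
  · simp only [hs]
    rw [if_neg hi₀]
    split_ifs <;> simp
  · congr 1
    funext t i
    by_cases h0 : ∃ a, ∀ t, x t i = a
    · have : s i = 0 := by
        simp only [hs]
        rw [if_pos h0]
      rw [pt_of_zero this]
      obtain ⟨a, ha⟩ := h0
      rw [ha, ha]
    · by_cases h1 : ∀ t, x t i = t
      · have : s i = 1 := by
          simp only [hs]
          rw [if_neg h0, if_pos h1]
        rw [pt_of_one this, h1]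
      · have : s i = 2 := by
          simp only [hs]
          rw [if_neg h0, if_neg h1]
        rw [pt_of_two this]
        rcases hx i with h2 | h2 | h2
        · exact absurd h2 h0
        · exact absurd h2 h1
        · exact h2 t

/-- At most one parameter is its own reverse. -/
lemma card_mid (n : ℕ) : n ≤ (univ.filter fun t : Fin n => Fin.rev t ≠ t).card + 1 := by
  have h1 : (univ.filter fun t : Fin n => ¬ Fin.rev t ≠ t).card ≤ 1 := by
    rw [Finset.card_le_one]
    intro t ht t' ht'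
    rw [Finset.mem_filter, not_not] at ht ht'
    have h1 := congrArg Fin.val ht.2
    have h2 := congrArg Fin.val ht'.2
    rw [Fin.val_rev] at h1 h2
    apply Fin.ext
    omega
  have h2 := Finset.card_filter_add_card_filter_not (s := (univ : Finset (Fin n)))
    (fun t => Fin.rev t ≠ t)
  rw [Finset.card_univ, Fintype.card_fin] at h2
  omega

lemma sum_pc (a : Fin d → Fin n) (s : Fin d → Fin 3) : ∑ t, pc a s t ≤ 2 * d := by
  have h1 : ∑ t, pc a s t =
      ∑ i : Fin d, (univ.filter fun t : Fin n => s i = 0 ∧ (a i = t ∨ a i = Fin.rev t)).card :=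
    Finset.sum_card_bipartiteAbove_eq_sum_card_bipartiteBelow
      (fun (t : Fin n) (i : Fin d) => s i = 0 ∧ (a i = t ∨ a i = Fin.rev t))
  rw [h1]
  calc ∑ i : Fin d, (univ.filter fun t : Fin n => s i = 0 ∧ (a i = t ∨ a i = Fin.rev t)).card
      ≤ ∑ _i : Fin d, 2 := by
        apply Finset.sum_le_sum
        intro i _
        have h2 : (univ.filter fun t : Fin n => s i = 0 ∧ (a i = t ∨ a i = Fin.rev t)) ⊆
            {a i, Fin.rev (a i)} := by
          intro t ht
          rw [Finset.mem_filter] at ht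
          rw [Finset.mem_insert, Finset.mem_singleton]
          rcases ht.2.2 with h | h
          · exact Or.inl h.symm
          · right
            rw [h, Fin.rev_rev]
        exact (Finset.card_le_card h2).trans Finset.card_le_two
    _ = 2 * d := by simp [mul_comm]

/-- The existence of a good truncation. -/
lemma exists_level {L D P₀ : ℕ} (hL : n ≤ 2 ^ L)
    (hP : 2 * d < ∑ P ∈ range P₀, (n - (L * P + 2 * D)))
    (a : Fin d → Fin n) (s : Fin d → Fin 3) :
    ∃ P, n ^ P * 2 ^ (2 * D) ≤ 2 ^ (keep P a s).card := by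
  by_contra hcon
  push Not at hcon
  have h1 : ∀ P, (keep P a s).card < L * P + 2 * D := by
    intro P
    have h2 : 2 ^ (keep P a s).card < 2 ^ (L * P + 2 * D) := by
      calc 2 ^ (keep P a s).card < n ^ P * 2 ^ (2 * D) := hcon P
        _ ≤ (2 ^ L) ^ P * 2 ^ (2 * D) := by gcongr
        _ = _ := by rw [← pow_mul, ← pow_add]
    exact (Nat.pow_lt_pow_iff_right (by norm_num)).1 h2
  have h2 : ∀ P, n - (L * P + 2 * D) ≤
      (univ.filter fun t : Fin n => Fin.rev t ≠ t ∧ P < pc a s t).card := by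
    intro P
    have h3 := card_mid n
    have h4 : (univ.filter fun t : Fin n => Fin.rev t ≠ t).card ≤ (keep P a s).card +
        (univ.filter fun t : Fin n => Fin.rev t ≠ t ∧ P < pc a s t).card := by
      refine le_trans (Finset.card_le_card ?_) (Finset.card_union_le _ _)
      intro t ht
      rw [Finset.mem_filter] at ht
      rw [Finset.mem_union, keep, Finset.mem_filter, Finset.mem_filter]
      rcases Nat.lt_or_ge P (pc a s t) with h | h
      · exact Or.inr ⟨ht.1, ht.2, h⟩
      · exact Or.inl ⟨ht.1, ht.2, h⟩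
    have h5 := h1 P
    omega
  have h3 : ∑ P ∈ range P₀, (n - (L * P + 2 * D)) ≤ ∑ t, pc a s t := by
    calc ∑ P ∈ range P₀, (n - (L * P + 2 * D))
        ≤ ∑ P ∈ range P₀, (univ.filter fun t : Fin n => Fin.rev t ≠ t ∧ P < pc a s t).card :=
          Finset.sum_le_sum fun P _ => h2 P
      _ ≤ ∑ P ∈ range P₀, (univ.filter fun t : Fin n => P < pc a s t).card := by
          apply Finset.sum_le_sum
          intro P _
          apply Finset.card_le_card
          intro t ht
          rw [Finset.mem_filter] at ht ⊢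
          exact ⟨ht.1, ht.2.2⟩
      _ = ∑ t : Fin n, ((range P₀).filter fun P => P < pc a s t).card :=
          Finset.sum_card_bipartiteAbove_eq_sum_card_bipartiteBelow
            (fun (P : ℕ) (t : Fin n) => P < pc a s t)
      _ ≤ _ := by
          apply Finset.sum_le_sum
          intro t _
          calc ((range P₀).filter fun P => P < pc a s t).card ≤ (range (pc a s t)).card := by
                apply Finset.card_le_card
                intro P hP
                rw [Finset.mem_filter] at hP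
                exact Finset.mem_range.2 hP.2
            _ = _ := by simp
  have h4 := sum_pc a s
  omega

/-- `S` is a good truncation of the line `A`. -/
def IsTr (D : ℕ) (A S : Finset (Fin d → Fin n)) : Prop :=
  ∃ (a : Fin d → Fin n) (s : Fin d → Fin 3) (P : ℕ), (∃ i, s i ≠ 0) ∧
    A = univ.image (pt Fin.rev a s) ∧ S = tr P a s ∧ n ^ P * 2 ^ (2 * D) ≤ 2 ^ S.card

lemma IsTr.trunc {D : ℕ} {A S : Finset (Fin d → Fin n)} (h : IsTr D A S) : Trunc A S := by
  obtain ⟨a, s, P, hs, hA, hS, -⟩ := h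
  refine ⟨⟨a, s, hs, hA⟩, a, s, hs, hA, ?_⟩
  intro x hx
  rw [hS, mem_tr] at hx
  obtain ⟨t, h1, -, h2⟩ := hx
  exact ⟨t, h1, h2⟩

lemma IsTr.card_le {D : ℕ} {A S : Finset (Fin d → Fin n)} (h : IsTr D A S) : S.card ≤ n := by
  obtain ⟨a, s, P, hs, hA, hS, -⟩ := h
  rw [hS, card_tr hs]
  refine (Finset.card_le_univ _).trans ?_
  simp

lemma IsTr.le_card {D : ℕ} (hn : 1 ≤ n) {A S : Finset (Fin d → Fin n)} (h : IsTr D A S) :
    2 * D ≤ S.card := by
  obtain ⟨a, s, P, hs, hA, hS, h⟩ := h
  have h1 : 2 ^ (2 * D) ≤ 2 ^ S.card := by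
    refine le_trans ?_ h
    exact Nat.le_mul_of_pos_left _ (Nat.pow_pos hn)
  exact (Nat.pow_le_pow_iff_right (by norm_num)).1 h1

/-- The data which determine a line through `x`. -/
lemma line_eq {a : Fin d → Fin n} {s : Fin d → Fin 3} {t : Fin n} (ht : Fin.rev t ≠ t) :
    univ.image (pt Fin.rev a s) = univ.image (pt Fin.rev (pt Fin.rev a s t)
      (dir (pt Fin.rev a s t) t ((univ.filter fun i => pt Fin.rev a s t i = t ∨
        pt Fin.rev a s t i = Fin.rev t) \
          (univ.filter fun i => s i = 0 ∧ (a i = t ∨ a i = Fin.rev t))))) := by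
  congr 1
  funext w i
  set x := pt Fin.rev a s t with hx
  set I := (univ.filter fun i => x i = t ∨ x i = Fin.rev t) \
          (univ.filter fun i => s i = 0 ∧ (a i = t ∨ a i = Fin.rev t)) with hI
  have hmem : i ∈ I ↔ s i ≠ 0 := by
    rw [hI, Finset.mem_sdiff, Finset.mem_filter, Finset.mem_filter]
    constructor
    · rintro ⟨⟨h1, h2⟩, h3⟩ h0
      apply h3
      have h4 : x i = a i := by rw [hx, pt_of_zero h0]
      rw [h4] at h2
      exact ⟨h1, h0, h2⟩
    · intro h0
      refine ⟨⟨Finset.mem_univ _, ?_⟩, fun h => h0 h.2.1⟩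
      rcases fin3 (s i) h0 with h | h
      · left; rw [hx, pt_of_one h]
      · right; rw [hx, pt_of_two h]
  by_cases h0 : s i = 0
  · have h1 : dir x t I i = 0 := (dir_zero i).2 (fun h => hmem.1 h h0)
    rw [pt_of_zero h0, pt_of_zero h1, hx, pt_of_zero h0]
  · have h1 : i ∈ I := hmem.2 h0
    rcases fin3 (s i) h0 with h | h
    · have h2 : x i = t := by rw [hx, pt_of_one h]
      have h3 : dir x t I i = 1 := by simp [dir, h1, h2]
      rw [pt_of_one h, pt_of_one h3]
    · have h2 : x i ≠ t := by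
        rw [hx, pt_of_two h]
        exact ht
      have h3 : dir x t I i = 2 := by simp [dir, h1, h2]
      rw [pt_of_two h, pt_of_two h3]

/-- The weight of the truncated lines through a point. -/
lemma sum_trunc {D : ℕ} (hn : 1 ≤ n) {F : Finset (Finset (Fin d → Fin n))}
    {T : Finset (Fin d → Fin n) → Finset (Fin d → Fin n)}
    (hF : ∀ S ∈ F, ∃ A, IsTr D A S ∧ S = T A) (x : Fin d → Fin n) :
    ∑ G ∈ F with x ∈ G, (1 / 2 : ℝ) ^ G.card ≤
      n * ((1 / 2) ^ (2 * D) * (1 + 1 / (n : ℝ)) ^ d) := by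
  classical
  -- the data
  have hdat : ∀ G ∈ F.filter (fun G => x ∈ G), ∃ z : Fin n × Finset (Fin d),
      (1 / 2 : ℝ) ^ G.card ≤ (1 / 2) ^ (2 * D) * (1 / (n : ℝ)) ^ z.2.card ∧
      G = T (univ.image (pt Fin.rev x (dir x z.1 ((univ.filter fun i => x i = z.1 ∨
        x i = Fin.rev z.1) \ z.2)))) := by
    intro G hG
    rw [Finset.mem_filter] at hG
    obtain ⟨A, ⟨a, s, P, hs, hA, hS, hP⟩, hT⟩ := hF G hG.1
    have hx := hG.2
    rw [hS, mem_tr] at hx
    obtain ⟨t, ht, hpc, hxt⟩ := hx
    refine ⟨(t, univ.filter fun i => s i = 0 ∧ (a i = t ∨ a i = Fin.rev t)), ?_, ?_⟩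
    · have h1 : n ^ (pc a s t) * 2 ^ (2 * D) ≤ 2 ^ G.card :=
        le_trans (Nat.mul_le_mul_right _ (Nat.pow_le_pow_right hn hpc)) hP
      have h2 : ((n : ℝ) ^ (pc a s t)) * 2 ^ (2 * D) ≤ 2 ^ G.card := by exact_mod_cast h1
      have hn' : (0 : ℝ) < n := by exact_mod_cast hn
      show (1 / 2 : ℝ) ^ G.card ≤ (1 / 2) ^ (2 * D) * (1 / (n : ℝ)) ^ (pc a s t)
      rw [one_div_pow, one_div_pow, one_div_pow, one_div_mul_one_div, mul_comm]
      exact one_div_le_one_div_of_le (by positivity) h2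
    · have h3 := line_eq (a := a) (s := s) ht
      rw [← hxt] at h3
      rw [hT, hA, h3]
  have hne : Nonempty (Fin n × Finset (Fin d)) := ⟨(⟨0, hn⟩, ∅)⟩
  choose! z hz1 hz2 using hdat
  calc ∑ G ∈ F with x ∈ G, (1 / 2 : ℝ) ^ G.card
      ≤ ∑ G ∈ F with x ∈ G, (1 / 2) ^ (2 * D) * (1 / (n : ℝ)) ^ (z G).2.card :=
        Finset.sum_le_sum hz1
    _ = ∑ w ∈ (F.filter fun G => x ∈ G).image z,
          (1 / 2) ^ (2 * D) * (1 / (n : ℝ)) ^ w.2.card := by
        rw [Finset.sum_image]
        intro G hG G' hG' he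
        rw [hz2 G hG, hz2 G' hG', he]
    _ ≤ ∑ w : Fin n × Finset (Fin d), (1 / 2) ^ (2 * D) * (1 / (n : ℝ)) ^ w.2.card := by
        apply Finset.sum_le_sum_of_subset_of_nonneg (Finset.subset_univ _)
        intro w _ _
        positivity
    _ = n * ((1 / 2) ^ (2 * D) * (1 + 1 / (n : ℝ)) ^ d) := by
        rw [← Finset.mul_sum, Fintype.sum_prod_type]
        simp only [Finset.sum_const, Finset.card_univ, Fintype.card_fin, nsmul_eq_mul]
        have h5 := Fintype.sum_pow_mul_eq_add_pow (Fin d) (1 / (n : ℝ)) 1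
        simp only [one_pow, mul_one, Fintype.card_fin] at h5
        rw [h5, add_comm (1 / (n : ℝ)) 1]
        ring

end WWL
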