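import Mathlib
import Pool.Agent.WWL.Trunc

/-!
The strong draw for all values of the parameters which satisfy certain inequalities.
-/

set_option autoImplicit false

namespace WWL

open Finset WW

variable {n d : ℕ}

/-- The number of the lines. -/
lemma card_lines {F : Finset (Finset (Fin d → Fin n))}
    {T : Finset (Fin d → Fin n) → Finset (Fin d → Fin n)}
    (hF : ∀ S ∈ F, ∃ A, IsL Fin.rev A ∧ S = T A) : F.card ≤ (3 * n) ^ d := by
  classical
  have h1 : F ⊆ (univ : Finset ((Fin d → Fin n) × (Fin d → Fin 3))).image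
      (fun z => T (univ.image (pt Fin.rev z.1 z.2))) := by
    intro S hS
    obtain ⟨A, ⟨a, s, -, hA⟩, hT⟩ := hF S hS
    rw [Finset.mem_image]
    exact ⟨(a, s), Finset.mem_univ _, by rw [hT, hA]⟩
  calc F.card ≤ _ := Finset.card_le_card h1
    _ ≤ (univ : Finset ((Fin d → Fin n) × (Fin d → Fin 3))).card := Finset.card_image_le
    _ = (3 * n) ^ d := by
      rw [Finset.card_univ, Fintype.card_prod, Fintype.card_fun, Fintype.card_fun]
      simp only [Fintype.card_fin]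
      rw [mul_comm, mul_pow]

theorem draw_of_params {L D E m r q P₀ : ℕ} (hn : 1 ≤ n) (hL : n ≤ 2 ^ L)
    (hE : (1 + 1 / (n : ℝ)) ^ d ≤ 2 ^ E)
    (hP : 2 * d < ∑ P ∈ range P₀, (n - (L * P + 2 * D)))
    (hm : 0 < m) (hq : 6 * m + r ≤ q)
    (hcomb : 4 * (m * (r * n) * ((2 * m + 1) * (2 * m) + 2 * (m * (r * n)))) <
      (2 * m - m) * (2 * m - r) * ((2 * m + 1) * ((2 * m + 1) * (2 * m))))
    (hD : 2 * L + (L + 1) * q + E ≤ D)
    (hS : (L + 2) * d + m * (L + n) + 2 ≤ m * (D * r)) :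
    ¬ WeakWins (IsLine n d) ∅ ∅ := by
  classical
  -- the truncation
  have hT : ∀ A : Finset (Fin d → Fin n), IsL Fin.rev A → ∃ S, IsTr D A S := by
    rintro A ⟨a, s, hs, rfl⟩
    obtain ⟨P, hPP⟩ := exists_level hL hP a s
    refine ⟨tr P a s, a, s, P, hs, rfl, rfl, ?_⟩
    rw [card_tr hs]
    exact hPP
  choose! T hT using hT
  set F : Finset (Finset (Fin d → Fin n)) := (univ.filter fun A => IsL Fin.rev A).image T with hFd
  have hF : ∀ S ∈ F, ∃ A, IsTr D A S ∧ S = T A := by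
    intro S hS
    rw [hFd, Finset.mem_image] at hS
    obtain ⟨A, hA, rfl⟩ := hS
    rw [Finset.mem_filter] at hA
    exact ⟨A, hT A hA.2, rfl⟩
  have hsys : Sys F := by
    apply sys_trunc (T := T)
    intro S hS
    obtain ⟨A, h1, h2⟩ := hF S hS
    exact ⟨A, h1.trunc, h2⟩
  have hcardn : ∀ K ∈ F, K.card ≤ n := by
    intro S hS
    obtain ⟨A, h1, h2⟩ := hF S hS
    exact h1.card_le
  have hFc : F.card ≤ (3 * n) ^ d := by
    apply card_lines (T := T)
    intro S hS
    obtain ⟨A, h1, h2⟩ := hF S hS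
    exact ⟨A, h1.trunc.isL, h2⟩
  have hL0 : 1 ≤ L + 1 := Nat.succ_pos L
  have hqD : q ≤ D := by
    have : q ≤ (L + 1) * q := Nat.le_mul_of_pos_left _ hL0
    omega
  have hbig : ∀ A ∈ F, 2 * m + 2 * m < A.card := by
    intro S hS
    obtain ⟨A, h1, h2⟩ := hF S hS
    have h3 := h1.le_card hn
    omega
  -- the degrees
  set lam : ℝ := n * ((1 / 2) ^ (2 * D) * (1 + 1 / (n : ℝ)) ^ d) with hlam
  have hlam0 : 0 ≤ lam := by positivity
  have hlamF : ∀ x, ∑ G ∈ F with x ∈ G, (1 / 2 : ℝ) ^ G.card ≤ lam := sum_trunc hn hF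
  have hnL : (n : ℝ) ≤ 2 ^ L := by exact_mod_cast hL
  have hlamB : lam ≤ 2 ^ (L + E) * (1 / 2) ^ (2 * D) := by
    calc lam ≤ 2 ^ L * ((1 / 2) ^ (2 * D) * 2 ^ E) := by
          rw [hlam]
          gcongr
      _ = _ := by rw [pow_add]; ring
  have hone : ∀ k : ℕ, (2 : ℝ) ^ k * (1 / 2) ^ k = 1 := fun k => by
    rw [← mul_pow]
    norm_num
  have hmono : ∀ {k j : ℕ}, k ≤ j → (2 : ℝ) ^ k * (1 / 2) ^ j ≤ 1 := by
    intro k j hkj
    calc (2 : ℝ) ^ k * (1 / 2) ^ j ≤ 2 ^ j * (1 / 2) ^ j := by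
          gcongr
          norm_num
      _ = 1 := hone j
  have hlam1 : lam ≤ 1 := hlamB.trans (hmono (by omega))
  have hLam : ∀ x, (F.filter fun G => x ∈ G).card ≤ 2 ^ n := by
    intro x
    have h1 : ((F.filter fun G => x ∈ G).card : ℝ) * (1 / 2) ^ n ≤ 1 := by
      calc ((F.filter fun G => x ∈ G).card : ℝ) * (1 / 2) ^ n
          = ∑ G ∈ F with x ∈ G, (1 / 2 : ℝ) ^ n := by rw [Finset.sum_const, nsmul_eq_mul]
        _ ≤ ∑ G ∈ F with x ∈ G, (1 / 2 : ℝ) ^ G.card := by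
          apply Finset.sum_le_sum
          intro G hG
          exact pow_le_pow_of_le_one (by norm_num) (by norm_num)
            (hcardn G (Finset.mem_filter.1 hG).1)
        _ ≤ 1 := (hlamF x).trans hlam1
    have h2 : ((F.filter fun G => x ∈ G).card : ℝ) ≤ 2 ^ n := by
      have h3 : (0 : ℝ) < 2 ^ n := by positivity
      calc ((F.filter fun G => x ∈ G).card : ℝ) =
          (F.filter fun G => x ∈ G).card * (1 / 2) ^ n * 2 ^ n := by
            rw [mul_assoc, mul_comm ((1 / 2 : ℝ) ^ n), hone, mul_one]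
        _ ≤ 1 * 2 ^ n := by gcongr
        _ = _ := one_mul _
    exact_mod_cast h2
  have hPar : Par F n (2 * m) (2 * m) (2 * m) r m q := by
    refine ⟨hsys, hcardn, by omega, hm, by omega, hcomb⟩
  apply strong_draw (F := F) hPar ?_ hbig hlam0 hlamF hLam ?_
  · intro l hl
    have h1 := isL_of_isLine hn hl
    refine ⟨T l, ?_, (hT l h1).trunc.subset⟩
    rw [hFd]
    exact Finset.mem_image_of_mem _ (Finset.mem_filter.2 ⟨Finset.mem_univ _, h1⟩)
  · -- the sum
    have hmu : (n : ℝ) * ((2 * n) ^ q * lam) ≤ (1 / 2) ^ D := by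
      calc (n : ℝ) * ((2 * n) ^ q * lam) ≤
          2 ^ L * ((2 ^ (L + 1)) ^ q * (2 ^ (L + E) * (1 / 2) ^ (2 * D))) := by
            have h1 : (2 * n : ℝ) ≤ 2 ^ (L + 1) := by
              rw [pow_succ]
              linarith
            gcongr
        _ = (2 ^ (2 * L + (L + 1) * q + E) * (1 / 2) ^ D) * (1 / 2) ^ D := by
            rw [← pow_mul, two_mul D, pow_add _ D D, show 2 * L + (L + 1) * q + E =
              L + (L + 1) * q + (L + E) by ring, pow_add, pow_add]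
            ring
        _ ≤ 1 * (1 / 2) ^ D := by
            gcongr
            exact hmono hD
        _ = _ := one_mul _
    have hmu0 : 0 ≤ (n : ℝ) * ((2 * n) ^ q * lam) := by positivity
    have hK : (n : ℝ) * (((2 ^ n : ℕ) : ℝ) * (n * ((2 * n) ^ q * lam)) ^ r) ≤
        2 ^ (L + n) * (1 / 2) ^ (D * r) := by
      calc (n : ℝ) * (((2 ^ n : ℕ) : ℝ) * (n * ((2 * n) ^ q * lam)) ^ r) ≤
          2 ^ L * (2 ^ n * ((1 / 2) ^ D) ^ r) := by
            push_cast
            gcongr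
        _ = _ := by rw [← pow_mul, pow_add]; ring
    have hF3 : (F.card : ℝ) ≤ 2 ^ ((L + 2) * d) := by
      have h1 : (F.card : ℝ) ≤ (3 * n) ^ d := by exact_mod_cast hFc
      refine h1.trans ?_
      rw [pow_mul]
      apply pow_le_pow_left₀ (by positivity)
      rw [pow_add]
      linarith
    calc (F.card : ℝ) * (n * (((2 ^ n : ℕ) : ℝ) * (n * ((2 * n) ^ q * lam)) ^ r)) ^ m
        ≤ 2 ^ ((L + 2) * d) * (2 ^ (L + n) * (1 / 2) ^ (D * r)) ^ m := by
          gcongr
      _ = 2 ^ ((L + 2) * d + m * (L + n)) * (1 / 2) ^ (m * (D * r)) := by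
          rw [mul_pow, ← pow_mul, ← pow_mul, pow_add, mul_comm (L + n) m, mul_comm (D * r) m]
          ring
      _ ≤ 2 ^ ((L + 2) * d + m * (L + n)) * (1 / 2) ^ ((L + 2) * d + m * (L + n) + 2) := by
          have h2 : ((1 : ℝ) / 2) ^ (m * (D * r)) ≤ (1 / 2) ^ ((L + 2) * d + m * (L + n) + 2) :=
            pow_le_pow_of_le_one (by norm_num) (by norm_num) hS
          gcongr
      _ = 1 / 4 := by
          rw [pow_add _ _ 2, ← mul_assoc, hone]
          norm_num
      _ < 1 / 2 := by norm_num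

end WWL
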