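import Mathlib
import Pool.Agent.WWL.Params

/-!
The asymptotic form of the strong draw.
-/

set_option autoImplicit false

namespace WWL

open Finset WW Filter

lemma sum_sub_ge {n D L : ℕ} (k : ℕ) :
    (k : ℝ) * ((n : ℝ) - 2 * D) - L * (k : ℝ) ^ 2 / 2 ≤
      ((∑ P ∈ range k, (n - (L * P + 2 * D)) : ℕ) : ℝ) := by
  induction k with
  | zero => simp
  | succ k ih =>
    rw [Finset.sum_range_succ]
    push_cast
    have h1 : (n : ℝ) - (L * k + 2 * D) ≤ ((n - (L * k + 2 * D) : ℕ) : ℝ) := by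
      have h2 : n ≤ (n - (L * k + 2 * D)) + (L * k + 2 * D) := by omega
      have h3 : (n : ℝ) ≤ ((n - (L * k + 2 * D) : ℕ) : ℝ) + (L * k + 2 * D) := by exact_mod_cast h2
      linarith
    push_cast at ih
    have hL : (0 : ℝ) ≤ L := Nat.cast_nonneg L
    nlinarith

lemma exp_le_two_pow {x : ℝ} {E : ℕ} (h : 2 * x ≤ E) : Real.exp x ≤ 2 ^ E := by
  have h1 : (1 : ℝ) / 2 < Real.log 2 := by
    have := Real.log_two_gt_d9
    linarith
  have h2 : (2 : ℝ) ^ E = Real.exp (E * Real.log 2) := by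
    rw [mul_comm, Real.exp_mul, Real.exp_log (by norm_num)]
    simp
  rw [h2]
  apply Real.exp_le_exp.2
  have hE : (0 : ℝ) ≤ E := Nat.cast_nonneg E
  nlinarith

lemma one_add_pow_le {n d : ℕ} : (1 + 1 / (n : ℝ)) ^ d ≤ Real.exp (d / n) := by
  have h1 : (1 + 1 / (n : ℝ)) ≤ Real.exp (1 / n) := by
    have := Real.add_one_le_exp (1 / (n : ℝ))
    linarith
  calc (1 + 1 / (n : ℝ)) ^ d ≤ (Real.exp (1 / n)) ^ d := by
        apply pow_le_pow_left₀ (by positivity) h1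
    _ = Real.exp (d / n) := by
        rw [← Real.exp_nat_mul]
        congr 1
        ring

/-- The combinatorial condition. -/
lemma comb_cond {n L C m r : ℕ} (hC : 1 ≤ C) (hL : 2 ≤ L) (hm : m = n / L ^ 2) (hr : r = C * L ^ 2)
    (hn : 16 * C * (1 + 2 * C) * L ^ 10 < n) :
    4 * (m * (r * n) * ((2 * m + 1) * (2 * m) + 2 * (m * (r * n)))) <
      (2 * m - m) * (2 * m - r) * ((2 * m + 1) * ((2 * m + 1) * (2 * m))) ∧
    n ≤ 2 * m * L ^ 2 ∧ m * L ^ 2 ≤ n ∧ r ≤ m := by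
  have hL2 : 4 ≤ L ^ 2 := by nlinarith
  have hLpos : 0 < L ^ 2 := by positivity
  have h10 : L ^ 2 * L ^ 8 = L ^ 10 := by rw [← pow_add]
  have h8 : 1 ≤ L ^ 8 := Nat.one_le_pow _ _ (by omega)
  have hmL : m * L ^ 2 ≤ n := by
    rw [hm]
    exact Nat.div_mul_le_self n (L ^ 2)
  have hmL' : n < (m + 1) * L ^ 2 := by
    have h := Nat.lt_div_mul_add (a := n) hLpos
    calc n < n / L ^ 2 * L ^ 2 + L ^ 2 := h
      _ = (m + 1) * L ^ 2 := by rw [hm]; ring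
  have hnL : 2 * C * (L ^ 2 * L ^ 2) ≤ n := by
    have e1 : L ^ 2 * L ^ 2 ≤ L ^ 10 := by
      rw [← pow_add]
      exact Nat.pow_le_pow_right (by omega) (by norm_num)
    calc 2 * C * (L ^ 2 * L ^ 2) ≤ 16 * C * (1 + 2 * C) * L ^ 10 := by
          apply Nat.mul_le_mul _ e1
          nlinarith
      _ ≤ n := hn.le
  have h2L : 2 * L ^ 2 ≤ n := by
    calc 2 * L ^ 2 = 2 * 1 * (1 * L ^ 2) := by ring
      _ ≤ 2 * C * (L ^ 2 * L ^ 2) := by gcongr; omega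
      _ ≤ n := hnL
  have hlow : n ≤ 2 * m * L ^ 2 := by
    have e1 : (m + 1) * L ^ 2 = m * L ^ 2 + L ^ 2 := by ring
    have e2 : 2 * m * L ^ 2 = m * L ^ 2 + m * L ^ 2 := by ring
    omega
  have hrm : r ≤ m := by
    by_contra hcon
    push Not at hcon
    have e1 : 2 * m * L ^ 2 < 2 * r * L ^ 2 := by
      apply Nat.mul_lt_mul_of_pos_right _ hLpos
      omega
    have e2 : 2 * r * L ^ 2 = 2 * C * (L ^ 2 * L ^ 2) := by rw [hr]; ring
    omega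
  refine ⟨?_, hlow, hmL, hrm⟩
  have hm4 : m * 4 ≤ n := (Nat.mul_le_mul_left m hL2).trans hmL
  have hn1 : 1 ≤ n := by omega
  have hmpos : 0 < m := by
    rcases Nat.eq_zero_or_pos m with h | h
    · rw [h] at hlow
      omega
    · exact h
  -- the left hand side
  have g1 : m * (r * n) ≤ C * (n * n) := by
    calc m * (r * n) = C * (m * L ^ 2 * n) := by rw [hr]; ring
      _ ≤ C * (n * n) := by gcongr
  have g2 : (2 * m + 1) * (2 * m) ≤ n * n := by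
    apply Nat.mul_le_mul <;> omega
  have g3 : 4 * (m * (r * n) * ((2 * m + 1) * (2 * m) + 2 * (m * (r * n)))) ≤
      4 * C * (1 + 2 * C) * n ^ 4 := by
    calc 4 * (m * (r * n) * ((2 * m + 1) * (2 * m) + 2 * (m * (r * n)))) ≤
        4 * (C * (n * n) * (n * n + 2 * (C * (n * n)))) := by gcongr
      _ = _ := by ring
  -- the right hand side
  have g4 : 8 * m ^ 5 ≤ (2 * m - m) * (2 * m - r) * ((2 * m + 1) * ((2 * m + 1) * (2 * m))) := by
    calc 8 * m ^ 5 = m * m * ((2 * m) * ((2 * m) * (2 * m))) := by ring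
      _ ≤ _ := by
        apply Nat.mul_le_mul
        · apply Nat.mul_le_mul <;> omega
        · apply Nat.mul_le_mul
          · omega
          · apply Nat.mul_le_mul <;> omega
  have g5 : n ^ 5 ≤ 4 * L ^ 10 * (8 * m ^ 5) := by
    calc n ^ 5 ≤ (2 * m * L ^ 2) ^ 5 := Nat.pow_le_pow_left hlow 5
      _ = _ := by ring
  have g6 : 4 * L ^ 10 * (4 * C * (1 + 2 * C) * n ^ 4) < 4 * L ^ 10 * (8 * m ^ 5) := by
    calc 4 * L ^ 10 * (4 * C * (1 + 2 * C) * n ^ 4) = 16 * C * (1 + 2 * C) * L ^ 10 * n ^ 4 := by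
          ring
      _ < n * n ^ 4 := Nat.mul_lt_mul_of_pos_right hn (by positivity)
      _ = n ^ 5 := by ring
      _ ≤ _ := g5
  have g7 := lt_of_mul_lt_mul_left g6 (Nat.zero_le _)
  omega

/-- The averaging condition, for real numbers. -/
lemma cond_avg {δ n L P D d : ℝ} (hδ : 0 < δ) (hδ8 : δ ≤ 1 / 8) (hL : 2 ≤ L) (hn : 0 < n)
    (hδL : 28 ≤ δ * L) (hLn : L ^ 2 ≤ n) (hD : D ≤ δ * n) (hP0 : 0 ≤ P)
    (hP1 : L * P ≤ (1 - 2 * δ) * n) (hP2 : (1 - 2 * δ) * n < L * (P + 1))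
    (hd : d * (L - 1) ≤ (1 / 4 - 2 * δ) * n ^ 2) :
    2 * d < P * (n - 2 * D) - L * P ^ 2 / 2 := by
  have hδ1 : 0 ≤ 1 - 2 * δ := by linarith
  have e1 : P * ((1 - 2 * δ) * n / 2) ≤ P * (n - 2 * D) - L * P ^ 2 / 2 := by
    have e2 : P * (n - 2 * D) - L * P ^ 2 / 2 = P * (n - 2 * D - L * P / 2) := by ring
    rw [e2]
    apply mul_le_mul_of_nonneg_left _ hP0
    linarith
  refine lt_of_lt_of_le ?_ e1
  have e4 : (2 * d) * (L * (L - 1)) ≤ 2 * L * ((1 / 4 - 2 * δ) * n ^ 2) := by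
    have := mul_le_mul_of_nonneg_left hd (show 0 ≤ 2 * L by linarith)
    calc (2 * d) * (L * (L - 1)) = 2 * L * (d * (L - 1)) := by ring
      _ ≤ _ := this
  have e5 : ((1 - 2 * δ) * n - L) * ((1 - 2 * δ) * n / 2 * (L - 1)) ≤
      L * P * ((1 - 2 * δ) * n / 2 * (L - 1)) := by
    apply mul_le_mul_of_nonneg_right
    · linarith
    · have : 0 ≤ L - 1 := by linarith
      positivity
  have f3 : 1 ≤ (1 - 2 * δ) ^ 2 * (L - 1) - (1 - 8 * δ) * L := by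
    have h1 : (1 - 2 * δ) ^ 2 * (L - 1) - (1 - 8 * δ) * L =
        4 * (δ * L) + 4 * (δ ^ 2 * (L - 1)) + 4 * δ - 1 := by ring
    rw [h1]
    have h2 : 0 ≤ δ ^ 2 * (L - 1) := by
      have : 0 ≤ L - 1 := by linarith
      positivity
    linarith
  have f4 : (1 - 2 * δ) * (L * (L - 1)) < n := by
    have f5 : L * (L - 1) < n := by
      have : L * (L - 1) = L ^ 2 - L := by ring
      linarith
    have f6 : 0 ≤ L * (L - 1) := by
      have : 0 ≤ L - 1 := by linarith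
      positivity
    have f7 : (1 - 2 * δ) * (L * (L - 1)) ≤ 1 * (L * (L - 1)) :=
      mul_le_mul_of_nonneg_right (by linarith) f6
    linarith
  have f8 : n ≤ ((1 - 2 * δ) ^ 2 * (L - 1) - (1 - 8 * δ) * L) * n := by
    have := mul_le_mul_of_nonneg_right f3 hn.le
    linarith
  have f1 : ((1 - 2 * δ) * n - L) * ((1 - 2 * δ) * n / 2 * (L - 1)) -
      2 * L * ((1 / 4 - 2 * δ) * n ^ 2) =
      n / 2 * (((1 - 2 * δ) ^ 2 * (L - 1) - (1 - 8 * δ) * L) * n -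
        (1 - 2 * δ) * (L * (L - 1))) := by ring
  have f2 : 0 < n / 2 * (((1 - 2 * δ) ^ 2 * (L - 1) - (1 - 8 * δ) * L) * n -
        (1 - 2 * δ) * (L * (L - 1))) := by
    apply mul_pos (by linarith)
    linarith
  have e3 : (2 * d) * (L * (L - 1)) < P * ((1 - 2 * δ) * n / 2) * (L * (L - 1)) := by
    have : P * ((1 - 2 * δ) * n / 2) * (L * (L - 1)) =
        L * P * ((1 - 2 * δ) * n / 2 * (L - 1)) := by ring
    linarith
  have : 0 ≤ L - 1 := by linarith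
  exact lt_of_mul_lt_mul_right e3 (by positivity)

/-- The condition for the weights, for real numbers. -/
lemma cond_D {δ n L C m E : ℝ} (hδ : 0 < δ) (hL : 2 ≤ L) (hn : 0 < n) (hC : 0 ≤ C)
    (hδL : 28 ≤ δ * L) (hm0 : 0 ≤ m) (hup : m * L ^ 2 ≤ n) (hE : E ≤ n / (L - 1) + 1)
    (hn2 : (2 * C + 4) * L ^ 3 ≤ δ * n / 2) :
    2 * L + (L + 1) * (6 * m + C * L ^ 2) + E ≤ δ * n := by
  have hLpos : 0 < L := by linarith
  have hL1 : 0 < L - 1 := by linarith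
  have e1 : m * L ≤ n / L := by
    rw [le_div_iff₀ hLpos]
    calc m * L * L = m * L ^ 2 := by ring
      _ ≤ n := hup
  have e1' : m ≤ m * L := le_mul_of_one_le_right hm0 (by linarith)
  have e2 : n / (L - 1) ≤ 2 * (n / L) := by
    rw [← mul_div_assoc, div_le_div_iff₀ hL1 hLpos]
    have := mul_le_mul_of_nonneg_left (show L ≤ 2 * (L - 1) by linarith) hn.le
    calc n * L ≤ n * (2 * (L - 1)) := this
      _ = 2 * n * (L - 1) := by ring
  have e3 : n / L ≤ δ * n / 28 := by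
    rw [div_le_div_iff₀ hLpos (by norm_num)]
    have := mul_le_mul_of_nonneg_left hδL hn.le
    calc n * 28 ≤ n * (δ * L) := this
      _ = δ * n * L := by ring
  have e6 : L ^ 2 ≤ L ^ 3 := pow_le_pow_right₀ (by linarith) (by norm_num)
  have e7 : L ≤ L ^ 3 := by
    calc L = L ^ 1 := by ring
      _ ≤ L ^ 3 := pow_le_pow_right₀ (by linarith) (by norm_num)
  have e8 : 1 ≤ L ^ 3 := by linarith
  have e9 : C * L ^ 2 ≤ C * L ^ 3 := mul_le_mul_of_nonneg_left e6 hC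
  have e10 : (L + 1) * (C * L ^ 2) = C * L ^ 3 + C * L ^ 2 := by ring
  have e11 : (L + 1) * (6 * m + C * L ^ 2) = 6 * (m * L) + 6 * m + (L + 1) * (C * L ^ 2) := by ring
  have e12 : (2 * C + 4) * L ^ 3 = 2 * (C * L ^ 3) + 4 * L ^ 3 := by ring
  rw [e11, e10]
  linarith

/-- The condition for the sum over all configurations, for real numbers. -/
lemma cond_S {δ n L C m D d : ℝ} (hδ : 0 < δ) (hL : 28 ≤ L) (hn : 0 < n) (hC : 0 ≤ C)
    (hδL : 28 ≤ δ * L) (hm : 0 ≤ m) (hup : m * L ^ 2 ≤ n) (hlow : n ≤ 2 * m * L ^ 2)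
    (hLn : L ^ 2 ≤ n) (hδC : 16 ≤ δ * C) (hD : δ * n ≤ D + 1) (hd0 : 0 ≤ d)
    (hd : d * (L - 1) ≤ n ^ 2 / 4) :
    (L + 2) * d + m * (L + n) + 2 ≤ m * (D * (C * L ^ 2)) := by
  have hLn' : L ≤ n := by
    have : L * 1 ≤ L * L := mul_le_mul_of_nonneg_left (by linarith) (by linarith)
    have h2 : L ^ 2 = L * L := by ring
    linarith
  have e1 : (L + 2) * d ≤ n ^ 2 := by
    have h1 : (L + 2) * d ≤ (4 * (L - 1)) * d := mul_le_mul_of_nonneg_right (by linarith) hd0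
    have h2 : (4 * (L - 1)) * d = 4 * (d * (L - 1)) := by ring
    linarith
  have e2 : m * 4 ≤ n := by
    have h1 : m * 4 ≤ m * L ^ 2 := by
      apply mul_le_mul_of_nonneg_left _ hm
      have h2 : L * 28 ≤ L * L := mul_le_mul_of_nonneg_left hL (by linarith)
      have h3 : L ^ 2 = L * L := by ring
      linarith
    linarith
  have e4 : m * (L + n) ≤ n ^ 2 / 2 := by
    have h1 : m * (L + n) ≤ m * (2 * n) := mul_le_mul_of_nonneg_left (by linarith) hm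
    have h2 : (m * 4) * n ≤ n * n := mul_le_mul_of_nonneg_right e2 hn.le
    have h3 : m * (2 * n) = (m * 4) * n / 2 := by ring
    have h4 : n ^ 2 = n * n := by ring
    linarith
  have e5 : δ * n / 2 ≤ D := by
    have : δ * L ≤ δ * n := mul_le_mul_of_nonneg_left hLn' hδ.le
    linarith
  have e7 : C * n / 2 ≤ m * (C * L ^ 2) := by
    have := mul_le_mul_of_nonneg_left hlow hC
    have h2 : C * (2 * m * L ^ 2) = 2 * (m * (C * L ^ 2)) := by ring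
    linarith
  have e8 : 4 * n ^ 2 ≤ m * (D * (C * L ^ 2)) := by
    have hD0 : 0 ≤ D := le_trans (by positivity) e5
    calc 4 * n ^ 2 = 16 * n ^ 2 / 4 := by ring
      _ ≤ (δ * C) * n ^ 2 / 4 := by gcongr
      _ = (δ * n / 2) * (C * n / 2) := by ring
      _ ≤ D * (m * (C * L ^ 2)) := by gcongr
      _ = _ := by ring
  have e9 : 2 ≤ n ^ 2 / 2 := by
    have h1 : n * 28 ≤ n * n := mul_le_mul_of_nonneg_left (by linarith) hn.le
    have h2 : n ^ 2 = n * n := by ring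
    linarith
  linarith

theorem draw_num {δ : ℝ} (hδ : 0 < δ) (hδ8 : δ ≤ 1 / 8) {n d L C : ℕ} (hC : 16 / δ ≤ C)
    (hLn : n ≤ 2 ^ L) (hL2 : 2 ≤ L) (hLδ : 28 / δ ≤ L)
    (hn1 : 16 * C * (1 + 2 * C) * L ^ 10 < n)
    (hn2 : 2 / δ * (2 * C + 4) * (L : ℝ) ^ 3 ≤ n)
    (hd : (d : ℝ) * (L - 1 : ℝ) ≤ (1 / 4 - 2 * δ) * (n : ℝ) ^ 2) :
    ¬ WeakWins (IsLine n d) ∅ ∅ := by
  have hC1 : 1 ≤ C := by
    have h1 : (0 : ℝ) < C := lt_of_lt_of_le (by positivity) hC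
    exact_mod_cast h1
  obtain ⟨hcomb, hlow, hup, hrm⟩ := comb_cond hC1 hL2 rfl rfl hn1
  have hn0 : 0 < n := lt_of_le_of_lt (Nat.zero_le _) hn1
  have hmpos : 0 < n / L ^ 2 := by
    rcases Nat.eq_zero_or_pos (n / L ^ 2) with h | h
    · rw [h] at hlow
      omega
    · exact h
  -- real numbers
  have hLR : (2 : ℝ) ≤ L := by exact_mod_cast hL2
  have hnR : (0 : ℝ) < n := by exact_mod_cast hn0
  have hmR : (1 : ℝ) ≤ ((n / L ^ 2 : ℕ) : ℝ) := by exact_mod_cast hmpos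
  have hlowR : (n : ℝ) ≤ 2 * ((n / L ^ 2 : ℕ) : ℝ) * (L : ℝ) ^ 2 := by exact_mod_cast hlow
  have hupR : ((n / L ^ 2 : ℕ) : ℝ) * (L : ℝ) ^ 2 ≤ n := by exact_mod_cast hup
  have hLn' : (L : ℝ) ^ 2 ≤ n := by
    have h1 : 1 * (L : ℝ) ^ 2 ≤ ((n / L ^ 2 : ℕ) : ℝ) * (L : ℝ) ^ 2 :=
      mul_le_mul_of_nonneg_right hmR (by positivity)
    linarith
  have hδL : 28 ≤ δ * L := by
    rw [div_le_iff₀ hδ] at hLδ
    linarith
  have hL28 : (28 : ℝ) ≤ L := by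
    have : δ * L ≤ 1 * L := mul_le_mul_of_nonneg_right (by linarith) (by linarith)
    linarith
  have hδC : 16 ≤ δ * C := by
    rw [div_le_iff₀ hδ] at hC
    linarith
  have hD1 : (⌊δ * n⌋₊ : ℝ) ≤ δ * n := Nat.floor_le (by positivity)
  have hD2 : δ * n < ⌊δ * n⌋₊ + 1 := Nat.lt_floor_add_one _
  have hP1 : (⌊(1 - 2 * δ) * n / L⌋₊ : ℝ) ≤ (1 - 2 * δ) * n / L := Nat.floor_le (by
    have : 0 ≤ 1 - 2 * δ := by linarith
    positivity)
  have hP2 : (1 - 2 * δ) * n / L < ⌊(1 - 2 * δ) * n / L⌋₊ + 1 := Nat.lt_floor_add_one _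
  have hP3 : (L : ℝ) * ⌊(1 - 2 * δ) * n / L⌋₊ ≤ (1 - 2 * δ) * n := by
    rw [le_div_iff₀ (by linarith)] at hP1
    linarith
  have hP4 : (1 - 2 * δ) * n < L * (⌊(1 - 2 * δ) * n / L⌋₊ + 1 : ℝ) := by
    rw [div_lt_iff₀ (by linarith)] at hP2
    linarith
  have hLm : (0 : ℝ) < L - 1 := by linarith
  have hL1 : ((L - 1 : ℕ) : ℝ) = L - 1 := by
    rw [Nat.cast_sub (by omega)]
    simp
  have hE1 : (n : ℝ) / (L - 1) ≤ ((n / (L - 1) + 1 : ℕ) : ℝ) := by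
    have h1 : n < (n / (L - 1) + 1) * (L - 1) := by
      have h := Nat.lt_div_mul_add (a := n) (b := L - 1) (by omega)
      calc n < n / (L - 1) * (L - 1) + (L - 1) := h
        _ = (n / (L - 1) + 1) * (L - 1) := by ring
    have h2 : (n : ℝ) < ((n / (L - 1) + 1 : ℕ) : ℝ) * (L - 1 : ℝ) := by
      rw [← hL1]
      exact_mod_cast h1
    rw [div_le_iff₀ hLm]
    exact h2.le
  have hE2 : ((n / (L - 1) + 1 : ℕ) : ℝ) ≤ n / (L - 1) + 1 := by
    push_cast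
    rw [← hL1]
    have := Nat.cast_div_le (α := ℝ) (m := n) (n := L - 1)
    linarith
  have hdR : (0 : ℝ) ≤ d := Nat.cast_nonneg d
  have hCR : (0 : ℝ) ≤ C := Nat.cast_nonneg C
  have hd4 : (d : ℝ) * (L - 1 : ℝ) ≤ (n : ℝ) ^ 2 / 4 := by
    have : 0 ≤ δ * (n : ℝ) ^ 2 := by positivity
    have h2 : (1 / 4 - 2 * δ) * (n : ℝ) ^ 2 = (n : ℝ) ^ 2 / 4 - 2 * (δ * (n : ℝ) ^ 2) := by ring
    linarith
  have hn2' : (2 * C + 4 : ℝ) * (L : ℝ) ^ 3 ≤ δ * n / 2 := by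
    have e6 : 2 / δ * (2 * C + 4) * (L : ℝ) ^ 3 = ((2 * C + 4) * (L : ℝ) ^ 3) * 2 / δ := by
      ring
    rw [e6, div_le_iff₀ hδ] at hn2
    linarith
  apply draw_of_params (L := L) (D := ⌊δ * n⌋₊) (E := n / (L - 1) + 1) (m := n / L ^ 2)
    (r := C * L ^ 2) (q := 6 * (n / L ^ 2) + C * L ^ 2) (P₀ := ⌊(1 - 2 * δ) * n / L⌋₊)
    hn0 hLn ?_ ?_ hmpos le_rfl hcomb ?_ ?_
  · refine one_add_pow_le.trans (exp_le_two_pow (le_trans ?_ hE1))
    rw [← mul_div_assoc, div_le_div_iff₀ hnR hLm]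
    have h1 : 2 * (d : ℝ) * (L - 1) = 2 * ((d : ℝ) * (L - 1)) := by ring
    have h2 : (n : ℝ) ^ 2 = n * n := by ring
    have h3 : (0 : ℝ) ≤ n * n := by positivity
    linarith
  · have h1 := sum_sub_ge (n := n) (D := ⌊δ * n⌋₊) (L := L) ⌊(1 - 2 * δ) * n / L⌋₊
    have h2 := cond_avg hδ hδ8 hLR hnR hδL hLn' hD1 (Nat.cast_nonneg _) hP3 hP4 hd
    have h3 := lt_of_lt_of_le h2 h1
    exact_mod_cast h3
  · have h1 := cond_D hδ hLR hnR hCR hδL (by linarith) hupR hE2 hn2'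
    have h2 := lt_of_le_of_lt h1 hD2
    have h3 : 2 * L + (L + 1) * (6 * (n / L ^ 2) + C * L ^ 2) + (n / (L - 1) + 1) <
        ⌊δ * n⌋₊ + 1 := by exact_mod_cast h2
    omega
  · have h1 := cond_S hδ hL28 hnR hCR hδL (by linarith) hupR hlowR hLn' hδC hD2.le hdR hd4
    exact_mod_cast h1

end WWL
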