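import Mathlib
import Pool.Agent.WWL.Asym
import Pool.Agent.WW.Threshold

/-!
The lower bound for the Weak Win threshold.
-/

set_option autoImplicit false

namespace WWL

open Finset WW Filter

lemma eventually_log_ge (K : ℕ) : ∀ᶠ n : ℕ in atTop, K ≤ Nat.log 2 n + 1 := by
  filter_upwards [eventually_ge_atTop (2 ^ K)] with n hn
  have := Nat.le_log_of_pow_le (b := 2) (by norm_num) hn
  omega

lemma eventually_pow_lt (K : ℝ) (hK : 0 < K) (j : ℕ) : ∀ᶠ n : ℕ in atTop,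
    K * (((Nat.log 2 n + 1 : ℕ) : ℝ)) ^ j < n := by
  have h1 := (Real.isLittleO_pow_log_id_atTop (n := j)).comp_tendsto
    (tendsto_natCast_atTop_atTop (R := ℝ))
  have hc : 0 < 1 / (2 * K * 3 ^ j) := by positivity
  have h2 := h1.def hc
  filter_upwards [h2, eventually_ge_atTop 3] with n hn h3
  have hn3 : (3 : ℝ) ≤ n := by exact_mod_cast h3
  have hn0 : (0 : ℝ) < n := by linarith
  have hlog1 : 1 ≤ Real.log n := by
    rw [Real.le_log_iff_exp_le hn0]
    have := Real.exp_one_lt_d9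
    linarith
  simp only [Function.comp_apply, id_eq, Real.norm_eq_abs, abs_pow] at hn
  rw [abs_of_pos (by linarith : (0 : ℝ) < Real.log n), abs_of_pos hn0] at hn
  have hL : (((Nat.log 2 n + 1 : ℕ) : ℝ)) ≤ 3 * Real.log n := by
    have h4 : 2 ^ (Nat.log 2 n) ≤ n := Nat.pow_log_le_self 2 (by omega)
    have h5 : ((2 : ℝ) ^ (Nat.log 2 n)) ≤ n := by exact_mod_cast h4
    have h6 := Real.log_le_log (by positivity) h5
    rw [Real.log_pow] at h6
    have h7 : (1 : ℝ) / 2 < Real.log 2 := by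
      have := Real.log_two_gt_d9
      linarith
    have h8 : (0 : ℝ) ≤ ((Nat.log 2 n : ℕ) : ℝ) := Nat.cast_nonneg _
    push_cast
    nlinarith
  calc K * (((Nat.log 2 n + 1 : ℕ) : ℝ)) ^ j ≤ K * (3 * Real.log n) ^ j := by gcongr
    _ = K * 3 ^ j * Real.log n ^ j := by rw [mul_pow]; ring
    _ ≤ K * 3 ^ j * (1 / (2 * K * 3 ^ j) * n) := by gcongr
    _ = n / 2 := by
      field_simp
    _ < n := by linarith

/-- **The strong draw.** -/
theorem strong_draw_asym {ε : ℝ} (hε : 0 < ε) : ∀ᶠ n : ℕ in atTop, ∀ d : ℕ,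
    (d : ℝ) ≤ (Real.log 2 / 4 - ε) * (n : ℝ) ^ 2 / Real.log n →
      ¬ WeakWins (IsLine n d) ∅ ∅ := by
  set δ : ℝ := min ε (1 / 4) / 2 with hδd
  have hmin : 0 < min ε (1 / 4) := lt_min hε (by norm_num)
  have hδ : 0 < δ := by positivity
  have hδ8 : δ ≤ 1 / 8 := by
    have := min_le_right ε (1 / 4)
    rw [hδd]
    linarith
  have hδε : 2 * δ ≤ ε := by
    have := min_le_left ε (1 / 4)
    rw [hδd]
    linarith
  set C : ℕ := ⌈16 / δ⌉₊ with hC
  have hC1 : 16 / δ ≤ C := Nat.le_ceil _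
  have hCpos : (0 : ℝ) < C := lt_of_lt_of_le (by positivity) hC1
  have hCpos' : 0 < C := by exact_mod_cast hCpos
  filter_upwards [eventually_log_ge (max 2 ⌈28 / δ⌉₊),
    eventually_pow_lt (((16 * C * (1 + 2 * C) : ℕ)) : ℝ) (by positivity) 10,
    eventually_pow_lt (2 / δ * (2 * C + 4)) (by positivity) 3,
    eventually_ge_atTop 2] with n h1 h2 h3 h4 d hd
  set L : ℕ := Nat.log 2 n + 1 with hL
  have hn2 : (2 : ℝ) ≤ n := by exact_mod_cast h4
  have hlog : 0 < Real.log n := Real.log_pos (by linarith)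
  apply draw_num hδ hδ8 hC1 (L := L)
  · exact (Nat.lt_pow_succ_log_self (by norm_num) n).le
  · exact (le_max_left _ _).trans h1
  · refine (Nat.le_ceil _).trans ?_
    exact_mod_cast (le_max_right _ _).trans h1
  · exact_mod_cast h2
  · exact h3.le
  · -- the dimension
    have h5 : 2 ^ (Nat.log 2 n) ≤ n := Nat.pow_log_le_self 2 (by omega)
    have h6 : ((2 : ℝ) ^ (Nat.log 2 n)) ≤ n := by exact_mod_cast h5
    have h7 := Real.log_le_log (by positivity) h6
    rw [Real.log_pow] at h7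
    have hl2 : 0 < Real.log 2 := Real.log_pos (by norm_num)
    have hl1 : Real.log 2 < 1 := by
      have := Real.log_two_lt_d9
      linarith
    rw [le_div_iff₀ hlog] at hd
    have hd0 : (0 : ℝ) ≤ d := Nat.cast_nonneg d
    have h8 : ((L : ℝ) - 1) = ((Nat.log 2 n : ℕ) : ℝ) := by
      rw [hL]
      push_cast
      ring
    rw [h8]
    have h9 : (d : ℝ) * (((Nat.log 2 n : ℕ) : ℝ) * Real.log 2) ≤
        (Real.log 2 / 4 - ε) * (n : ℝ) ^ 2 :=
      (mul_le_mul_of_nonneg_left h7 hd0).trans hd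
    have h10 : (Real.log 2 / 4 - ε) * (n : ℝ) ^ 2 ≤
        Real.log 2 * ((1 / 4 - 2 * δ) * (n : ℝ) ^ 2) := by
      have h11 : Real.log 2 / 4 - ε ≤ Real.log 2 * (1 / 4 - 2 * δ) := by nlinarith
      calc (Real.log 2 / 4 - ε) * (n : ℝ) ^ 2 ≤
          (Real.log 2 * (1 / 4 - 2 * δ)) * (n : ℝ) ^ 2 := by gcongr
        _ = _ := by ring
    have h12 : Real.log 2 * ((d : ℝ) * ((Nat.log 2 n : ℕ) : ℝ)) ≤
        Real.log 2 * ((1 / 4 - 2 * δ) * (n : ℝ) ^ 2) := by
      calc Real.log 2 * ((d : ℝ) * ((Nat.log 2 n : ℕ) : ℝ)) =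
          (d : ℝ) * (((Nat.log 2 n : ℕ) : ℝ) * Real.log 2) := by ring
        _ ≤ _ := h9.trans h10
    exact le_of_mul_le_mul_left h12 hl2

end WWL
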